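import Pool.Agent.H60.D2.Rnd
import Pool.Agent.H64.F5.Lip

/-!
# Natural second derivatives on the dilated boxes

`Ptn`: a chart with natural second derivatives on its boxes, at one point, and a list of covectors
which is near the gradients. `ht_dil`: in the coordinates of the covectors, the heights are natural
at the distance `2 ^ k` of the point. `dil_hs`: the second derivative of a polynomial at the
distance `2 ^ k`. `eta_box`: the coordinates on the box. `near_box`: the gradients on the box.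
`agr_hs`: the second derivative of a polynomial which is small on the box.
-/

set_option autoImplicit false

namespace Pool.HP46

open Finset Real MvPolynomial
open Pool.GEN Pool.CHT Pool.D2F Pool.D2Z
open Pool.F5 (gp hp eval_gp dd_gp deg_gp eval_hp deg_hp)
open Pool.D2R (dd hs nrm nrz dd_add dd_smul dd_sub hs_sub hs_add_left hs_add_right hs_smul_left
  hs_smul_right hs_comm mv_seg box_all dd_congr depC_pderiv)

variable {m : ℕ}

/-! ### Growth -/

/-- **The growth** from a natural box to the box of `2 ^ n` times the radius and the sides. -/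
theorem dil (r : ℕ) (K : ℕ → ℕ) : ∃ c₀ D₁ : ℕ, 1 ≤ D₁ ∧ ∀ {m : ℕ} {c : ℕ → Fin m} {i : ℕ}
    {G : ℕ → MvPolynomial (Option (Fin m)) ℝ} {Q : MvPolynomial (Option (Fin m)) ℝ}
    {g : ℕ → ℕ} {a : ℕ} {t M : ℝ} (n : ℕ), i < r → Set.InjOn c (Set.Iio i) →
    (∀ l, (G l).totalDegree ≤ K l) → (∀ l, DepC c l (G l)) → DepC c i Q →
    Q.totalDegree ≤ K i → 0 ≤ M →
    (∀ b, NBx c G g a t i b → |eval b Q| ≤ M) → ∀ b : Option (Fin m) → ℝ,
      |b none - t| ≤ 2 ^ n / 2 ^ a →
      (∀ l < i, |b (some (c l)) - eval b (G l)| ≤ 2 ^ n / 2 ^ g l) →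
        |eval b Q| ≤ 2 ^ (c₀ + n * D₁) * M := by
  obtain ⟨D, hD⟩ : ∃ D, D = ∑ i ∈ range r, K i * dga K i := ⟨_, rfl⟩
  obtain ⟨C, hC, h⟩ := grow_one D
  obtain ⟨c₀, hc₀⟩ := pow_unbounded_of_one_lt C (one_lt_two (α := ℝ))
  refine ⟨c₀, D + 1, by omega, ?_⟩
  intro m c i G Q g a t M n hi hc hdeg hdep hQ hQd hM0 hM b hb0 hb
  have hDi : K i * dga K i ≤ D := by
    rw [hD]
    exact Finset.single_le_sum (f := fun i => K i * dga K i) (fun _ _ => Nat.zero_le _)
      (mem_range.2 hi)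
  obtain ⟨b₀, h01, h02⟩ := pt_adapt hc hdep t (fun _ => 0) i le_rfl
  obtain ⟨p, h1, h2, h3, h4, h5⟩ := curve_all hc hdeg hdep b₀ b i le_rfl
  have h2n : (0 : ℝ) < 2 ^ n := by positivity
  have h6 := h (MvPolynomial.aeval p Q) M n (K i * dga K i) (natDegree_aeval_mul Q p h1 hQd) hDi
    (fun τ hτ => by
      rw [Pool.KBX.eval_aeval_poly]
      have hs0 : 0 ≤ τ / 2 ^ n := div_nonneg hτ.1 (by positivity)
      have hs1 : τ / 2 ^ n ≤ 1 / 2 ^ n := div_le_div_of_nonneg_right hτ.2 h2n.le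
      refine hM _ ⟨?_, fun l hl => ?_⟩
      · show |(p none).eval (τ / 2 ^ n) - t| ≤ _
        have e1 : (p none).eval (τ / 2 ^ n) - t = τ / 2 ^ n * (b none - t) := by
          rw [h2, h01]; ring
        rw [e1, abs_mul, abs_of_nonneg hs0]
        calc τ / 2 ^ n * |b none - t| ≤ 1 / 2 ^ n * (2 ^ n / 2 ^ a) :=
              mul_le_mul hs1 hb0 (abs_nonneg _) (by positivity)
          _ = _ := by field_simp
      · show |(p (some (c l))).eval (τ / 2 ^ n) - eval (fun o => (p o).eval (τ / 2 ^ n)) (G l)| ≤ _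
        rw [h3 l hl, add_sub_cancel_left, h02 l hl, add_zero, sub_self, zero_add, sub_zero,
          abs_mul, abs_of_nonneg hs0]
        calc τ / 2 ^ n * |b (some (c l)) - eval b (G l)| ≤ 1 / 2 ^ n * (2 ^ n / 2 ^ g l) :=
              mul_le_mul hs1 (hb l hl) (abs_nonneg _) (by positivity)
          _ = _ := by field_simp)
  rw [Pool.KBX.eval_aeval_poly] at h6
  have e1 : eval (fun o => (p o).eval 1) Q = eval b Q := hQ _ _ (by
    show (p none).eval 1 = b none
    rw [h2]; ring) h5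
  rw [e1] at h6
  refine h6.trans (mul_le_mul_of_nonneg_right ?_ hM0)
  rw [pow_add]
  refine mul_le_mul hc₀.le (pow_le_pow_right₀ (by norm_num) (Nat.mul_le_mul_left n (by omega)))
    (by positivity) (by positivity)

/-! ### The directions -/

theorem dep_gp {c : ℕ → Fin m} {i : ℕ} {P : MvPolynomial (Option (Fin m)) ℝ} (h : DepC c i P)
    (V : Option (Fin m) → ℝ) : DepC c i (gp P V) := by
  intro b b' h0 h1
  rw [eval_gp, eval_gp]
  unfold dd
  exact Finset.sum_congr rfl fun o _ => by rw [depC_pderiv h o b b' h0 h1]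

theorem dep_hp {c : ℕ → Fin m} {i : ℕ} {P : MvPolynomial (Option (Fin m)) ℝ} (h : DepC c i P)
    (V V' : Option (Fin m) → ℝ) : DepC c i (hp P V V') := dep_gp (dep_gp h V') V

/-- The second derivative depends on the coordinates of the chain only. -/
theorem hs_congr {c : ℕ → Fin m} {i : ℕ} {P : MvPolynomial (Option (Fin m)) ℝ} (h : DepC c i P)
    {x x' V V' W W' : Option (Fin m) → ℝ} (h0 : x none = x' none)
    (h1 : ∀ l < i, x (some (c l)) = x' (some (c l))) (h2 : V none = W none)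
    (h3 : ∀ l < i, V (some (c l)) = W (some (c l))) (h4 : V' none = W' none)
    (h5 : ∀ l < i, V' (some (c l)) = W' (some (c l))) : hs P x V V' = hs P x' W W' := by
  have e1 : hs P x V V' = hs P x' V V' := by
    rw [← eval_hp, ← eval_hp]
    exact dep_hp h V V' _ _ h0 h1
  have e2 : hs P x' V V' = hs P x' W V' := by
    rw [← dd_gp, ← dd_gp]
    exact dd_congr (dep_gp h V') x' h2 h3
  have e3 : hs P x' W V' = hs P x' W W' := by
    rw [hs_comm, hs_comm P x' W W', ← dd_gp, ← dd_gp]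
    exact dd_congr (dep_gp h W) x' h4 h5
  rw [e1, e2, e3]

/-! ### A point -/

/-- **A chart with natural second derivatives**, at one point, and a list of covectors which is near
the gradients. -/
structure Ptn (c : ℕ → Fin m) (g : ℕ → ℕ) (a i D k : ℕ)
    (G : ℕ → MvPolynomial (Option (Fin m)) ℝ) (χ : ℕ → Option (Fin m) → ℝ)
    (x : Option (Fin m) → ℝ) : Prop where
  inj : Set.InjOn c (Set.Iio i)
  deg : ∀ l, (G l).totalDegree ≤ D
  dep : ∀ l, DepC c l (G l)
  cvc : ∀ l, CvC c l (χ l)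
  pos : ∀ l < i, |x (some (c l)) - eval x (G l)| ≤ 1 / 2 ^ g l
  nc : ∀ l < i, ∀ V, |dd (G l) x V - cv (χ l) V| ≤ 2 ^ k / 2 ^ g l * en c g a χ l V
  hes : ∀ l < i, ∀ b, NBx c G g a (x none) l b → ∀ V V',
    |hs (G l) b V V'| ≤ 2 ^ k / 2 ^ g l * (en c g a χ l V * en c g a χ l V')

section pt

variable {c : ℕ → Fin m} {g : ℕ → ℕ} {a i D k : ℕ} {G : ℕ → MvPolynomial (Option (Fin m)) ℝ}
  {χ : ℕ → Option (Fin m) → ℝ} {x : Option (Fin m) → ℝ}

theorem Ptn.le (h : Ptn c g a i D k G χ x) {i' : ℕ} (hi : i' ≤ i) : Ptn c g a i' D k G χ x :=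
  ⟨h.inj.mono (Set.Iio_subset_Iio hi), h.deg, h.dep, h.cvc, fun l hl => h.pos l (by omega),
    fun l hl => h.nc l (by omega), fun l hl => h.hes l (by omega)⟩

theorem Ptn.mono (h : Ptn c g a i D k G χ x) {k' : ℕ} (hk : k ≤ k') :
    Ptn c g a i D k' G χ x := by
  have h2 : (2 : ℝ) ^ k ≤ 2 ^ k' := pow_le_pow_right₀ (by norm_num) hk
  refine ⟨h.inj, h.deg, h.dep, h.cvc, h.pos, fun l hl V => (h.nc l hl V).trans ?_,
    fun l hl b hb V V' => (h.hes l hl b hb V V').trans ?_⟩
  · exact mul_le_mul_of_nonneg_right (div_le_div_of_nonneg_right h2 (by positivity))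
      (en_nonneg _ _ _ _ _ _)
  · exact mul_le_mul_of_nonneg_right (div_le_div_of_nonneg_right h2 (by positivity))
      (mul_nonneg (en_nonneg _ _ _ _ _ _) (en_nonneg _ _ _ _ _ _))

end pt

theorem en_le_of {c : ℕ → Fin m} {g : ℕ → ℕ} {a i : ℕ} {χ : ℕ → Option (Fin m) → ℝ}
    {W : Option (Fin m) → ℝ} {R : ℝ} (h : ∀ j ≤ i, |eta c g a χ W j| ≤ R) :
    en c g a χ i W ≤ (i + 1) * R := by
  unfold en
  refine (Finset.sum_le_sum fun j hj => h j (Nat.lt_succ_iff.1 (Finset.mem_range.1 hj))).trans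
    (le_of_eq ?_)
  rw [Finset.sum_const, Finset.card_range, nsmul_eq_mul]
  push_cast
  ring

theorem eta_le_en {c : ℕ → Fin m} {g : ℕ → ℕ} {a i : ℕ} {χ : ℕ → Option (Fin m) → ℝ}
    (W : Option (Fin m) → ℝ) {j : ℕ} (hj : j ≤ i) : |eta c g a χ W j| ≤ en c g a χ i W :=
  Finset.single_le_sum (f := fun j => |eta c g a χ W j|) (fun _ _ => abs_nonneg _)
    (Finset.mem_range.2 (Nat.lt_succ_of_le hj))

theorem en_smul (c : ℕ → Fin m) (g : ℕ → ℕ) (a i : ℕ) (χ : ℕ → Option (Fin m) → ℝ)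
    (W : Option (Fin m) → ℝ) (s : ℝ) : en c g a χ i (s • W) = |s| * en c g a χ i W := by
  unfold en
  rw [Finset.mul_sum]
  exact Finset.sum_congr rfl fun j _ => by rw [eta_smul, abs_mul]

theorem two_i (i : ℕ) : ((i : ℝ) + 1) ≤ 2 ^ i := by
  induction i with
  | zero => norm_num
  | succ i ih =>
    push_cast
    rw [pow_succ]
    have : (0 : ℝ) ≤ i := Nat.cast_nonneg i
    linarith

/-- The heights are natural at the distance `2 ^ k`. -/
def HtS (D i C : ℕ) : Prop := ∀ {m : ℕ} {c : ℕ → Fin m} {g : ℕ → ℕ} {a k : ℕ}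
  {G : ℕ → MvPolynomial (Option (Fin m)) ℝ} {χ : ℕ → Option (Fin m) → ℝ}
  {x W : Option (Fin m) → ℝ}, Ptn c g a i D k G χ x → (∀ j ≤ i, |eta c g a χ W j| ≤ 2 ^ k) →
  ∀ l < i, |(x + W) (some (c l)) - eval (x + W) (G l)| ≤ 2 ^ (C * (k + 1)) / 2 ^ g l

/-- The second derivatives at the distance `2 ^ k`. -/
def DlS (D i C : ℕ) : Prop := ∀ {m : ℕ} {c : ℕ → Fin m} {g : ℕ → ℕ} {a k : ℕ}
  {G : ℕ → MvPolynomial (Option (Fin m)) ℝ} {χ : ℕ → Option (Fin m) → ℝ}
  {x W : Option (Fin m) → ℝ} {Q : MvPolynomial (Option (Fin m)) ℝ} {M : ℝ},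
  Ptn c g a i D k G χ x → DepC c i Q → Q.totalDegree ≤ D → 0 ≤ M →
  (∀ b, NBx c G g a (x none) i b → ∀ V V',
    |hs Q b V V'| ≤ M * (en c g a χ i V * en c g a χ i V')) →
  (∀ j ≤ i, |eta c g a χ W j| ≤ 2 ^ k) → ∀ V V',
    |hs Q (x + W) V V'| ≤ 2 ^ (C * (k + 1)) * M * (en c g a χ i V * en c g a χ i V')

/-- The gradients and the increments at the distance `2 ^ k`. -/
def InS (D i C : ℕ) : Prop := ∀ {m : ℕ} {c : ℕ → Fin m} {g : ℕ → ℕ} {a k : ℕ}
  {G : ℕ → MvPolynomial (Option (Fin m)) ℝ} {χ : ℕ → Option (Fin m) → ℝ}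
  {x W : Option (Fin m) → ℝ}, Ptn c g a (i + 1) D k G χ x →
  (∀ j ≤ i, |eta c g a χ W j| ≤ 2 ^ k) →
  (∀ V, |dd (G i) (x + W) V - cv (χ i) V| ≤ 2 ^ (C * (k + 1)) / 2 ^ g i * en c g a χ i V) ∧
    |eval (x + W) (G i) - eval x (G i) - cv (χ i) W| ≤ 2 ^ (C * (k + 1)) / 2 ^ g i

theorem dl_of (D i : ℕ) {C : ℕ} (h : HtS D i C) : ∃ C', DlS D i C' := by
  obtain ⟨c₀, D₁, hD₁, hd⟩ := dil (i + 1) (fun _ => D)
  refine ⟨c₀ + (C + 1) * D₁, ?_⟩
  intro m c g a k G χ x W Q M hp hQ hQd hM hbox hW V V'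
  have hE : 0 ≤ en c g a χ i V * en c g a χ i V' :=
    mul_nonneg (en_nonneg _ _ _ _ _ _) (en_nonneg _ _ _ _ _ _)
  have h1 := hd (c := c) (i := i) (G := G) (Q := Pool.F5.hp Q V V') (g := g) (a := a) (t := x none)
    (M := M * (en c g a χ i V * en c g a χ i V')) ((C + 1) * (k + 1)) (by omega) hp.inj hp.deg
    hp.dep (dep_hp hQ V V') (deg_hp hQd V V') (mul_nonneg hM hE)
    (fun b hb => by rw [eval_hp]; exact hbox b hb V V') (x + W) (by
      have h2 := hW 0 (Nat.zero_le _)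
      have e1 : (x + W) none - x none = W none := by
        rw [Pi.add_apply]
        ring
      rw [e1, le_div_iff₀ (by positivity)]
      have e2 : |eta c g a χ W 0| = |W none| * 2 ^ a := by
        simp only [eta]
        rw [abs_mul, abs_of_pos (by positivity), mul_comm]
      rw [← e2]
      refine h2.trans (pow_le_pow_right₀ (by norm_num) ?_)
      nlinarith) (fun l hl => (h hp hW l hl).trans (div_le_div_of_nonneg_right
        (pow_le_pow_right₀ (by norm_num) (Nat.mul_le_mul_right _ (by omega))) (by positivity)))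
  rw [eval_hp] at h1
  refine h1.trans ?_
  rw [mul_assoc (2 ^ ((c₀ + (C + 1) * D₁) * (k + 1)))]
  refine mul_le_mul_of_nonneg_right (pow_le_pow_right₀ (by norm_num) ?_) (mul_nonneg hM hE)
  nlinarith

theorem eta_smul_le {c : ℕ → Fin m} {g : ℕ → ℕ} {a i : ℕ} {χ : ℕ → Option (Fin m) → ℝ}
    {W : Option (Fin m) → ℝ} {R : ℝ} (h : ∀ j ≤ i, |eta c g a χ W j| ≤ R) {u : ℝ}
    (hu : u ∈ Set.Icc (0 : ℝ) 1) : ∀ j ≤ i, |eta c g a χ (u • W) j| ≤ R := by
  intro j hj
  rw [eta_smul, abs_mul, abs_of_nonneg hu.1]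
  have h1 := h j hj
  calc u * |eta c g a χ W j| ≤ 1 * |eta c g a χ W j| :=
        mul_le_mul_of_nonneg_right hu.2 (abs_nonneg _)
    _ ≤ R := by rw [one_mul]; exact h1

theorem in_of (D i : ℕ) {C : ℕ} (h : DlS D i C) : ∃ C', InS D i C' := by
  refine ⟨C + 2 * i + 4, ?_⟩
  intro m c g a k G χ x W hp hW
  have hp0 := hp.le (Nat.le_succ i)
  have hg0 : (0 : ℝ) < 2 ^ g i := by positivity
  have hen : en c g a χ i W ≤ 2 ^ (i + k) := by
    refine (en_le_of hW).trans ?_
    rw [pow_add]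
    exact mul_le_mul_of_nonneg_right (two_i i) (by positivity)
  have hseg : ∀ u ∈ Set.Icc (0 : ℝ) 1, ∀ V V' : Option (Fin m) → ℝ,
      |hs (G i) (x + u • W) V V'| ≤ 2 ^ (C * (k + 1)) * (2 ^ k / 2 ^ g i) *
        (en c g a χ i V * en c g a χ i V') := fun u hu V V' =>
    h hp0 (hp.dep i) (hp.deg i) (by positivity) (hp.hes i (Nat.lt_succ_self i))
      (eta_smul_le hW hu) V V'
  have hfun : ∀ u : ℝ, (fun o => x o + u * W o) = x + u • W := fun u => rfl
  -- the gradients
  have hgr : ∀ u ∈ Set.Icc (0 : ℝ) 1, ∀ V : Option (Fin m) → ℝ,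
      |dd (G i) (x + u • W) V - cv (χ i) V| ≤
        2 ^ ((C + i + 3) * (k + 1)) / 2 ^ g i * en c g a χ i V := by
    intro u hu V
    have h1 := dd_seg (G i) x W V (M := 2 ^ (C * (k + 1)) * (2 ^ k / 2 ^ g i) *
        (2 ^ (i + k) * en c g a χ i V)) (fun u hu => by
      rw [hfun]
      refine (hseg u hu W V).trans (mul_le_mul_of_nonneg_left
        (mul_le_mul_of_nonneg_right hen (en_nonneg _ _ _ _ _ _)) (by positivity))) u hu
    rw [hfun] at h1
    have h2 := hp.nc i (Nat.lt_succ_self i) V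
    have e1 : dd (G i) (x + u • W) V - cv (χ i) V =
        (dd (G i) (x + u • W) V - dd (G i) x V) + (dd (G i) x V - cv (χ i) V) := by ring
    rw [e1]
    refine ((abs_add_le _ _).trans (add_le_add h1 h2)).trans ?_
    have e2 : (2 : ℝ) ^ (C * (k + 1)) * (2 ^ k / 2 ^ g i) * (2 ^ (i + k) * en c g a χ i V) +
        2 ^ k / 2 ^ g i * en c g a χ i V =
        (2 ^ (C * (k + 1) + k + (i + k)) + 2 ^ k) / 2 ^ g i * en c g a χ i V := by
      rw [pow_add, pow_add]
      ring
    rw [e2]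
    refine mul_le_mul_of_nonneg_right (div_le_div_of_nonneg_right ?_ hg0.le)
      (en_nonneg _ _ _ _ _ _)
    have h3 : (2 : ℝ) ^ k ≤ 2 ^ (C * (k + 1) + k + (i + k)) :=
      pow_le_pow_right₀ (by norm_num) (by omega)
    calc (2 : ℝ) ^ (C * (k + 1) + k + (i + k)) + 2 ^ k ≤
          2 ^ (C * (k + 1) + k + (i + k) + 1) := by rw [pow_succ]; linarith
      _ ≤ _ := pow_le_pow_right₀ (by norm_num) (by nlinarith)
  have h1 := hgr 1 ⟨zero_le_one, le_rfl⟩
  rw [one_smul] at h1
  refine ⟨fun V => (h1 V).trans ?_, ?_⟩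
  · refine mul_le_mul_of_nonneg_right (div_le_div_of_nonneg_right
      (pow_le_pow_right₀ (by norm_num) (Nat.mul_le_mul_right _ (by omega))) hg0.le)
      (en_nonneg _ _ _ _ _ _)
  · obtain ⟨P, hP⟩ : ∃ P, P = G i - afp x 0 (χ i) := ⟨_, rfl⟩
    have hPe : ∀ b, eval b P = eval b (G i) - cv (χ i) (b - x) := fun b => by
      rw [hP, map_sub, eval_afp, zero_add]
    have hPd : ∀ b V, dd P b V = dd (G i) b V - cv (χ i) V := by
      intro b V
      rw [hP, dd_sub]
      congr 1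
      unfold dd cv
      exact Finset.sum_congr rfl fun o _ => by rw [pd_afp]
    have h2 := mv_seg P x W (M := 2 ^ ((C + i + 3) * (k + 1)) / 2 ^ g i * 2 ^ (i + k))
      (fun u hu => by
        rw [hfun, hPd]
        exact (hgr u hu W).trans (mul_le_mul_of_nonneg_left hen (by positivity))) 1
      ⟨zero_le_one, le_rfl⟩
    rw [hfun, one_smul, hPe, hPe, add_sub_cancel_left, sub_self] at h2
    have e1 : eval (x + W) (G i) - cv (χ i) W - (eval x (G i) - cv (χ i) 0) =
        eval (x + W) (G i) - eval x (G i) - cv (χ i) W := by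
      have e0 : cv (χ i) 0 = 0 := by
        unfold cv
        simp
      rw [e0]
      ring
    rw [e1] at h2
    refine h2.trans ?_
    rw [div_mul_eq_mul_div, ← pow_add]
    refine div_le_div_of_nonneg_right (pow_le_pow_right₀ (by norm_num) ?_) hg0.le
    nlinarith

theorem ht_of (D i : ℕ) {C C' : ℕ} (h : HtS D i C) (h' : InS D i C') : ∃ C'', HtS D (i + 1) C'' := by
  refine ⟨C + C' + 2, ?_⟩
  intro m c g a k G χ x W hp hW l hl
  rcases Nat.lt_succ_iff_lt_or_eq.1 hl with hl' | rfl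
  · refine (h (hp.le (Nat.le_succ i)) (fun j hj => hW j (by omega)) l hl').trans
      (div_le_div_of_nonneg_right (pow_le_pow_right₀ (by norm_num)
        (Nat.mul_le_mul_right _ (by omega))) (by positivity))
  · have hg0 : (0 : ℝ) < 2 ^ g l := by positivity
    have h1 := (h' hp (fun j hj => hW j (by omega))).2
    have h2 := hp.pos l hl
    have h3 : |W (some (c l)) - cv (χ l) W| ≤ 2 ^ k / 2 ^ g l := by
      have h4 := hW (l + 1) le_rfl
      simp only [eta] at h4
      rw [abs_mul, abs_of_pos hg0] at h4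
      rw [le_div_iff₀ hg0, mul_comm]
      exact h4
    have e1 : (x + W) (some (c l)) - eval (x + W) (G l) =
        (x (some (c l)) - eval x (G l)) + (W (some (c l)) - cv (χ l) W) -
        (eval (x + W) (G l) - eval x (G l) - cv (χ l) W) := by
      rw [Pi.add_apply]
      ring
    rw [e1]
    refine ((abs_sub _ _).trans (add_le_add ((abs_add_le _ _).trans (add_le_add h2 h3)) h1)).trans ?_
    rw [← add_div, ← add_div]
    refine div_le_div_of_nonneg_right ?_ hg0.le
    have h5 : (1 : ℝ) + 2 ^ k ≤ 2 ^ (k + 1) := by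
      rw [pow_succ]
      have : (1 : ℝ) ≤ 2 ^ k := one_le_pow₀ (by norm_num)
      linarith
    have h6 : (2 : ℝ) ^ (k + 1) ≤ 2 ^ ((C + C' + 1) * (k + 1)) :=
      pow_le_pow_right₀ (by norm_num) (by nlinarith)
    have h7 : (2 : ℝ) ^ (C' * (k + 1)) ≤ 2 ^ ((C + C' + 1) * (k + 1)) :=
      pow_le_pow_right₀ (by norm_num) (Nat.mul_le_mul_right _ (by omega))
    calc (1 : ℝ) + 2 ^ k + 2 ^ (C' * (k + 1)) ≤ 2 ^ ((C + C' + 1) * (k + 1) + 1) := by
          rw [pow_succ]
          linarith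
      _ ≤ _ := pow_le_pow_right₀ (by norm_num) (by nlinarith)

/-- **The heights, the second derivatives and the gradients** at the distance `2 ^ k`. -/
theorem all_s (D i : ℕ) : ∃ C, HtS D i C ∧ DlS D i C ∧ InS D i C := by
  have mono : ∀ {j C C' : ℕ}, C ≤ C' → (HtS D j C → HtS D j C') ∧ (DlS D j C → DlS D j C') ∧
      (InS D j C → InS D j C') := by
    intro j C C' hC
    have hp : ∀ k : ℕ, (2 : ℝ) ^ (C * (k + 1)) ≤ 2 ^ (C' * (k + 1)) := fun k =>
      pow_le_pow_right₀ (by norm_num) (Nat.mul_le_mul_right _ hC)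
    refine ⟨fun h => ?_, fun h => ?_, fun h => ?_⟩
    · intro m c g a k G χ x W hp' hW l hl
      exact (h hp' hW l hl).trans (div_le_div_of_nonneg_right (hp k) (by positivity))
    · intro m c g a k G χ x W Q M hp' h1 h2 h3 h4 h5 V V'
      refine (h hp' h1 h2 h3 h4 h5 V V').trans (mul_le_mul_of_nonneg_right
        (mul_le_mul_of_nonneg_right (hp k) h3)
        (mul_nonneg (en_nonneg _ _ _ _ _ _) (en_nonneg _ _ _ _ _ _)))
    · intro m c g a k G χ x W hp' hW
      obtain ⟨h1, h2⟩ := h hp' hW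
      refine ⟨fun V => (h1 V).trans (mul_le_mul_of_nonneg_right (div_le_div_of_nonneg_right (hp k)
        (by positivity)) (en_nonneg _ _ _ _ _ _)), h2.trans (div_le_div_of_nonneg_right (hp k)
        (by positivity))⟩
  have key : ∃ C, HtS D i C := by
    induction i with
    | zero => exact ⟨0, fun _ _ l hl => absurd hl (Nat.not_lt_zero l)⟩
    | succ i ih =>
      obtain ⟨C, hC⟩ := ih
      obtain ⟨C', hC'⟩ := dl_of D i hC
      obtain ⟨C'', hC''⟩ := in_of D i hC'
      exact ht_of D i hC hC''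
  obtain ⟨C, hC⟩ := key
  obtain ⟨C', hC'⟩ := dl_of D i hC
  obtain ⟨C'', hC''⟩ := in_of D i hC'
  exact ⟨C + C' + C'', (mono (by omega)).1 hC, (mono (by omega)).2.1 hC',
    (mono (by omega)).2.2 hC''⟩

/-! ### The box -/

/-- **The coordinates of the points of the box** are natural. -/
theorem eta_box (D i : ℕ) : ∃ C : ℕ, ∀ {m : ℕ} {c : ℕ → Fin m} {g : ℕ → ℕ} {a k : ℕ}
    {G : ℕ → MvPolynomial (Option (Fin m)) ℝ} {χ : ℕ → Option (Fin m) → ℝ}
    {x b : Option (Fin m) → ℝ}, Ptn c g a i D k G χ x → NBx c G g a (x none) i b →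
    ∀ j ≤ i, |eta c g a χ (b - x) j| ≤ 2 ^ (C * (k + 1)) := by
  induction i with
  | zero =>
    refine ⟨0, ?_⟩
    intro m c g a k G χ x b hp hb j hj
    obtain rfl : j = 0 := by omega
    simp only [eta]
    rw [abs_mul, abs_of_pos (by positivity), Pi.sub_apply, mul_comm, ← le_div_iff₀ (by positivity),
      Nat.zero_mul, pow_zero]
    exact hb.1
  | succ i ih =>
    obtain ⟨C, hC⟩ := ih
    obtain ⟨C', -, -, hC'⟩ := all_s D i
    refine ⟨C + C' * (C + 1) + 2, ?_⟩
    intro m c g a k G χ x b hp hb j hj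
    have h1 := hC (hp.le (Nat.le_succ i)) ⟨hb.1, fun l hl => hb.2 l (by omega)⟩
    rcases Nat.lt_or_ge j (i + 1) with hj' | hj'
    · refine (h1 j (by omega)).trans (pow_le_pow_right₀ (by norm_num) ?_)
      exact Nat.mul_le_mul_right _ (by omega)
    · obtain rfl : j = i + 1 := by omega
      have hg0 : (0 : ℝ) < 2 ^ g i := by positivity
      have h2 := (hC' (k := C * (k + 1) + k) (hp.mono (by omega)) (W := b - x)
        (fun j hj => (h1 j hj).trans (pow_le_pow_right₀ (by norm_num) (by omega)))).2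
      rw [add_sub_cancel] at h2
      have h3 := hp.pos i (Nat.lt_succ_self i)
      have h4 := hb.2 i (Nat.lt_succ_self i)
      have e1 : C' * (C * (k + 1) + k + 1) = C' * (C + 1) * (k + 1) := by ring
      rw [e1] at h2
      simp only [eta]
      rw [abs_mul, abs_of_pos hg0]
      have e2 : (b - x) (some (c i)) - cv (χ i) (b - x) =
          (b (some (c i)) - eval b (G i)) - (x (some (c i)) - eval x (G i)) +
          (eval b (G i) - eval x (G i) - cv (χ i) (b - x)) := by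
        rw [Pi.sub_apply]
        ring
      rw [e2]
      refine (mul_le_mul_of_nonneg_left ((abs_add_le _ _).trans (add_le_add ((abs_sub _ _).trans
        (add_le_add h4 h3)) h2)) hg0.le).trans ?_
      have e3 : (2 : ℝ) ^ g i * (1 / 2 ^ g i + 1 / 2 ^ g i +
          2 ^ (C' * (C + 1) * (k + 1)) / 2 ^ g i) = 2 + 2 ^ (C' * (C + 1) * (k + 1)) := by
        field_simp
        ring
      rw [e3]
      have h5 : (1 : ℝ) ≤ 2 ^ (C' * (C + 1) * (k + 1)) := one_le_pow₀ (by norm_num)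
      calc 2 + (2 : ℝ) ^ (C' * (C + 1) * (k + 1)) ≤ 2 ^ (C' * (C + 1) * (k + 1) + 2) := by
            rw [pow_add]
            linarith
        _ ≤ _ := pow_le_pow_right₀ (by norm_num) (by nlinarith)

/-- **The gradients on the box** are near the covectors. -/
theorem near_box (D i : ℕ) : ∃ C : ℕ, ∀ {m : ℕ} {c : ℕ → Fin m} {g : ℕ → ℕ} {a k : ℕ}
    {G : ℕ → MvPolynomial (Option (Fin m)) ℝ} {χ : ℕ → Option (Fin m) → ℝ}
    {x b : Option (Fin m) → ℝ}, Ptn c g a i D k G χ x → NBx c G g a (x none) i b →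
    Nc c g a i (2 ^ (C * (k + 1))) χ (fun l => grd (G l) b) := by
  have h1 := fun l : ℕ => eta_box D l
  have h2 := fun l : ℕ => all_s D l
  choose Ce hCe using h1
  choose Ca hCa using h2
  refine ⟨∑ l ∈ range i, Ca l * (Ce l + 1), ?_⟩
  intro m c g a k G χ x b hp hb l hl V
  have h3 := hCe l (hp.le hl.le) ⟨hb.1, fun j hj => hb.2 j (by omega)⟩
  have h4 := ((hCa l).2.2 (k := Ce l * (k + 1) + k) ((hp.le (Nat.succ_le_of_lt hl)).mono (by omega))
    (W := b - x) (fun j hj => (h3 j hj).trans (pow_le_pow_right₀ (by norm_num) (by omega)))).1 V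
  rw [add_sub_cancel] at h4
  have e1 : cv (grd (G l) b - χ l) V = dd (G l) b V - cv (χ l) V := by
    rw [cv_subl]
    rfl
  rw [e1]
  refine h4.trans (mul_le_mul_of_nonneg_right (div_le_div_of_nonneg_right
    (pow_le_pow_right₀ (by norm_num) ?_) (by positivity)) (en_nonneg _ _ _ _ _ _))
  have e2 : Ca l * (Ce l * (k + 1) + k + 1) = Ca l * (Ce l + 1) * (k + 1) := by ring
  rw [e2]
  refine Nat.mul_le_mul_right _ ?_
  exact Finset.single_le_sum (f := fun l => Ca l * (Ce l + 1)) (fun _ _ => Nat.zero_le _)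
    (Finset.mem_range.2 hl)

/-- **The natural norms on the box.** -/
theorem nrm_box (D i : ℕ) : ∃ C : ℕ, ∀ {m : ℕ} {c : ℕ → Fin m} {g : ℕ → ℕ} {a k : ℕ}
    {G : ℕ → MvPolynomial (Option (Fin m)) ℝ} {χ : ℕ → Option (Fin m) → ℝ}
    {x b : Option (Fin m) → ℝ}, Ptn c g a i D k G χ x → NBx c G g a (x none) i b →
    ∀ V, nrm c G g a i b V ≤ 2 ^ (C * (k + 1)) * en c g a χ i V ∧
      en c g a χ i V ≤ 2 ^ (C * (k + 1)) * nrm c G g a i b V := by
  obtain ⟨C, hC⟩ := near_box D i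
  refine ⟨(C + 1) * i, ?_⟩
  intro m c g a k G χ x b hp hb V
  have h1 := hC hp hb
  have h2 : ((1 : ℝ) + 2 ^ (C * (k + 1))) ^ i ≤ 2 ^ ((C + 1) * i * (k + 1)) := by
    have h3 : (1 : ℝ) + 2 ^ (C * (k + 1)) ≤ 2 ^ ((C + 1) * (k + 1)) := by
      have h4 : (1 : ℝ) ≤ 2 ^ (C * (k + 1)) := one_le_pow₀ (by norm_num)
      calc (1 : ℝ) + 2 ^ (C * (k + 1)) ≤ 2 ^ (C * (k + 1) + 1) := by rw [pow_succ]; linarith
        _ ≤ _ := pow_le_pow_right₀ (by norm_num) (by nlinarith)
    have e1 : (C + 1) * i * (k + 1) = (C + 1) * (k + 1) * i := by ring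
    rw [e1, pow_mul 2 ((C + 1) * (k + 1)) i]
    exact pow_le_pow_left₀ (by positivity) h3 i
  rw [nrm_en]
  exact ⟨(h1.en_le (by positivity) le_rfl V).trans (mul_le_mul_of_nonneg_right h2
    (en_nonneg _ _ _ _ _ _)), (h1.en_ge (by positivity) le_rfl V).trans
    (mul_le_mul_of_nonneg_right h2 (en_nonneg _ _ _ _ _ _))⟩

/-- **A polynomial which is small on the box**: its second derivative at the distance `2 ^ k`. -/
theorem agr_hs (D i : ℕ) : ∃ C : ℕ, ∀ {m : ℕ} {c : ℕ → Fin m} {g : ℕ → ℕ} {a k : ℕ}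
    {G : ℕ → MvPolynomial (Option (Fin m)) ℝ} {χ : ℕ → Option (Fin m) → ℝ}
    {x W : Option (Fin m) → ℝ} {Q : MvPolynomial (Option (Fin m)) ℝ} {M : ℝ},
    Ptn c g a i D k G χ x → DepC c i Q → Q.totalDegree ≤ D → 0 ≤ M →
    (∀ b, NBx c G g a (x none) i b → |eval b Q| ≤ M) → (∀ j ≤ i, |eta c g a χ W j| ≤ 2 ^ k) →
    ∀ V V', |hs Q (x + W) V V'| ≤
      2 ^ (C * (k + 1)) * M * (en c g a χ i V * en c g a χ i V') := by
  obtain ⟨c₀, D₁, hD₁, hd⟩ := dil (i + 1) (fun _ => D)
  obtain ⟨C₁, -, hC₁, -⟩ := all_s D i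
  obtain ⟨C₂, hC₂, hbox⟩ := box_all i D D
  obtain ⟨C₃, hC₃⟩ := nrm_box D i
  obtain ⟨c₂, hc₂⟩ := pow_unbounded_of_one_lt C₂ (one_lt_two (α := ℝ))
  refine ⟨C₁ + (c₂ + c₀ + D₁ + 2 * C₃ + i + 2), ?_⟩
  intro m c g a k G χ x W Q M hp hQ hQd hM hsm hW V V'
  have h1 : ∀ b, NBx c G g a (x none) i b → ∀ V V',
      |hs Q b V V'| ≤ 2 ^ ((c₂ + c₀ + D₁ + 2 * C₃ + i + 2) * (k + 1)) * M *
        (en c g a χ i V * en c g a χ i V') := by
    intro b hb V V'
    have hEV := en_nonneg c g a χ i V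
    have hEV' := en_nonneg c g a χ i V'
    have h2 : ∀ b', NBx c G g a (b none) i b' → |eval b' Q| ≤ 2 ^ (c₀ + 1 * D₁) * M := by
      intro b' hb'
      refine hd 1 (Nat.lt_succ_self i) hp.inj hp.deg hp.dep hQ hQd hM hsm b' ?_ fun l hl => ?_
      · have e1 : b' none - x none = (b' none - b none) + (b none - x none) := by ring
        rw [e1]
        refine ((abs_add_le _ _).trans (add_le_add hb'.1 hb.1)).trans (le_of_eq ?_)
        ring
      · refine (hb'.2 l hl).trans (div_le_div_of_nonneg_right (by norm_num) (by positivity))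
    have h3 := (hbox (c := c) (ψ := G) (Q := Q) (g := g) (a := a) (M := 2 ^ (c₀ + 1 * D₁) * M)
      (x := b) hp.inj hp.deg hp.dep hQ hQd (by positivity) h2 hb.2).2 V V' 0
    have e0 : dd Q b 0 = 0 := by
      unfold dd
      simp
    rw [e0, add_zero] at h3
    have hV := (hC₃ hp hb V).1
    have hV' := (hC₃ hp hb V').1
    have hN := Pool.D2R.nrm_nonneg c G g a i b V
    have hN' := Pool.D2R.nrm_nonneg c G g a i b V'
    have hz : nrz c G g a i b V V' 0 ≤ i * (2 ^ k * (en c g a χ i V * en c g a χ i V')) := by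
      unfold nrz
      have e1 : (0 : Option (Fin m) → ℝ) none = 0 := rfl
      rw [e1, abs_zero, mul_zero, zero_add]
      calc ∑ l ∈ range i, 2 ^ g l * |(0 : Option (Fin m) → ℝ) (some (c l)) - dd (G l) b 0 -
            hs (G l) b V V'| ≤ ∑ _l ∈ range i, 2 ^ k * (en c g a χ i V * en c g a χ i V') := by
            refine Finset.sum_le_sum fun l hl => ?_
            have hl' := Finset.mem_range.1 hl
            have e2 : (0 : Option (Fin m) → ℝ) (some (c l)) - dd (G l) b 0 - hs (G l) b V V' =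
                -hs (G l) b V V' := by
              unfold dd
              simp
            rw [e2, abs_neg]
            have h4 := hp.hes l hl' b ⟨hb.1, fun j hj => hb.2 j (by omega)⟩ V V'
            have h5 : en c g a χ l V * en c g a χ l V' ≤ en c g a χ i V * en c g a χ i V' :=
              mul_le_mul (en_mono c g a χ hl'.le V) (en_mono c g a χ hl'.le V')
                (en_nonneg _ _ _ _ _ _) hEV
            have h6 := h4.trans (mul_le_mul_of_nonneg_left h5 (by positivity))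
            have hg0 : (0 : ℝ) < 2 ^ g l := by positivity
            refine (mul_le_mul_of_nonneg_left h6 hg0.le).trans (le_of_eq ?_)
            field_simp
        _ = _ := by rw [Finset.sum_const, Finset.card_range, nsmul_eq_mul]
    obtain ⟨Y, hY⟩ : ∃ Y : ℝ, Y = 2 ^ (C₃ * (k + 1)) := ⟨_, rfl⟩
    rw [← hY] at hV hV'
    have hY1 : 1 ≤ Y := by rw [hY]; exact one_le_pow₀ (by norm_num)
    have hNN : nrm c G g a i b V * nrm c G g a i b V' ≤
        Y ^ 2 * (en c g a χ i V * en c g a χ i V') := by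
      calc nrm c G g a i b V * nrm c G g a i b V' ≤ (Y * en c g a χ i V) * (Y * en c g a χ i V') :=
            mul_le_mul hV hV' hN' (by positivity)
        _ = _ := by ring
    have hi : (i : ℝ) ≤ 2 ^ i := by
      have := two_i i
      linarith
    have h4 : nrm c G g a i b V * nrm c G g a i b V' + nrz c G g a i b V V' 0 ≤
        2 ^ ((2 * C₃ + i + 2) * (k + 1)) * (en c g a χ i V * en c g a χ i V') := by
      have hEE : 0 ≤ en c g a χ i V * en c g a χ i V' := mul_nonneg hEV hEV'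
      have h5 : Y ^ 2 ≤ 2 ^ ((2 * C₃ + i + 1) * (k + 1)) := by
        rw [hY, ← pow_mul]
        exact pow_le_pow_right₀ (by norm_num) (by nlinarith)
      have h6 : (i : ℝ) * 2 ^ k ≤ 2 ^ ((2 * C₃ + i + 1) * (k + 1)) := by
        calc (i : ℝ) * 2 ^ k ≤ 2 ^ i * 2 ^ k := mul_le_mul_of_nonneg_right hi (by positivity)
          _ = 2 ^ (i + k) := by rw [← pow_add]
          _ ≤ _ := pow_le_pow_right₀ (by norm_num) (by nlinarith)
      calc _ ≤ Y ^ 2 * (en c g a χ i V * en c g a χ i V') +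
            i * (2 ^ k * (en c g a χ i V * en c g a χ i V')) := add_le_add hNN hz
        _ = (Y ^ 2 + i * 2 ^ k) * (en c g a χ i V * en c g a χ i V') := by ring
        _ ≤ (2 ^ ((2 * C₃ + i + 1) * (k + 1) + 1)) * (en c g a χ i V * en c g a χ i V') := by
            refine mul_le_mul_of_nonneg_right ?_ hEE
            rw [pow_succ (2 : ℝ) ((2 * C₃ + i + 1) * (k + 1))]
            linarith
        _ ≤ _ := mul_le_mul_of_nonneg_right (pow_le_pow_right₀ (by norm_num) (by nlinarith)) hEE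
    refine h3.trans ((mul_le_mul_of_nonneg_left h4 (by positivity)).trans ?_)
    have hEE : 0 ≤ en c g a χ i V * en c g a χ i V' := mul_nonneg hEV hEV'
    have h5 : C₂ * 2 ^ (c₀ + 1 * D₁) * 2 ^ ((2 * C₃ + i + 2) * (k + 1)) ≤
        2 ^ ((c₂ + c₀ + D₁ + 2 * C₃ + i + 2) * (k + 1)) := by
      calc C₂ * 2 ^ (c₀ + 1 * D₁) * 2 ^ ((2 * C₃ + i + 2) * (k + 1)) ≤
            2 ^ c₂ * 2 ^ (c₀ + 1 * D₁) * 2 ^ ((2 * C₃ + i + 2) * (k + 1)) := by
            refine mul_le_mul_of_nonneg_right (mul_le_mul_of_nonneg_right hc₂.le ?_) ?_ <;>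
              positivity
        _ = 2 ^ (c₂ + (c₀ + 1 * D₁) + (2 * C₃ + i + 2) * (k + 1)) := by
            rw [← pow_add, ← pow_add]
        _ ≤ _ := pow_le_pow_right₀ (by norm_num) (by nlinarith)
    have h6 := mul_le_mul_of_nonneg_right h5 (mul_nonneg hM hEE)
    refine le_trans (le_of_eq ?_) (h6.trans (le_of_eq ?_)) <;> ring
  refine (hC₁ hp hQ hQd (by positivity) h1 hW V V').trans (le_of_eq ?_)
  rw [Nat.add_mul C₁, pow_add]
  ring

/-! ### From the natural norms at the points of the box -/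

/-- **A chart whose second derivatives are natural in the natural norms.** -/
theorem ptn_of (D i : ℕ) : ∃ C : ℕ, ∀ {m : ℕ} {c : ℕ → Fin m} {g : ℕ → ℕ} {a k : ℕ}
    {G : ℕ → MvPolynomial (Option (Fin m)) ℝ} {χ : ℕ → Option (Fin m) → ℝ}
    {x : Option (Fin m) → ℝ}, Set.InjOn c (Set.Iio i) → (∀ l, (G l).totalDegree ≤ D) →
    (∀ l, DepC c l (G l)) → (∀ l, CvC c l (χ l)) →
    (∀ l < i, |x (some (c l)) - eval x (G l)| ≤ 1 / 2 ^ g l) →
    (∀ l < i, ∀ V, |dd (G l) x V - cv (χ l) V| ≤ 2 ^ k / 2 ^ g l * en c g a χ l V) →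
    (∀ l < i, ∀ b, NBx c G g a (x none) l b → ∀ V V',
      |hs (G l) b V V'| ≤ 2 ^ k / 2 ^ g l * (nrm c G g a l b V * nrm c G g a l b V')) →
    Ptn c g a i D (C * (k + 1)) G χ x := by
  induction i with
  | zero =>
    refine ⟨0, ?_⟩
    intro m c g a k G χ x h1 h2 h3 h4 h5 h6 h7
    exact ⟨h1, h2, h3, h4, h5, fun l hl => absurd hl (Nat.not_lt_zero l),
      fun l hl => absurd hl (Nat.not_lt_zero l)⟩
  | succ i ih =>
    obtain ⟨C, hC⟩ := ih
    obtain ⟨C', hC'⟩ := nrm_box D i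
    refine ⟨C + 2 * C' * (C + 1) + 1, ?_⟩
    intro m c g a k G χ x h1 h2 h3 h4 h5 h6 h7
    have hk : k ≤ (C + 2 * C' * (C + 1) + 1) * (k + 1) := by
      calc k ≤ 1 * (k + 1) := by omega
        _ ≤ _ := Nat.mul_le_mul_right _ (by omega)
    have hp := hC (h1.mono (Set.Iio_subset_Iio (Nat.le_succ i))) h2 h3 h4
      (fun l hl => h5 l (by omega)) (fun l hl => h6 l (by omega)) (fun l hl => h7 l (by omega))
    refine ⟨h1, h2, h3, h4, h5, fun l hl V => (h6 l hl V).trans ?_, fun l hl b hb V V' => ?_⟩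
    · exact mul_le_mul_of_nonneg_right (div_le_div_of_nonneg_right
        (pow_le_pow_right₀ (by norm_num) hk) (by positivity)) (en_nonneg _ _ _ _ _ _)
    · rcases Nat.lt_succ_iff_lt_or_eq.1 hl with hl' | rfl
      · refine (hp.hes l hl' b hb V V').trans ?_
        exact mul_le_mul_of_nonneg_right (div_le_div_of_nonneg_right
          (pow_le_pow_right₀ (by norm_num) (Nat.mul_le_mul_right _ (by omega))) (by positivity))
          (mul_nonneg (en_nonneg _ _ _ _ _ _) (en_nonneg _ _ _ _ _ _))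
      · have hV := (hC' hp hb V).1
        have hV' := (hC' hp hb V').1
        refine (h7 l hl b hb V V').trans ?_
        have hEE : 0 ≤ en c g a χ l V * en c g a χ l V' :=
          mul_nonneg (en_nonneg _ _ _ _ _ _) (en_nonneg _ _ _ _ _ _)
        have h8 : nrm c G g a l b V * nrm c G g a l b V' ≤
            2 ^ (2 * C' * (C * (k + 1) + 1)) * (en c g a χ l V * en c g a χ l V') := by
          calc nrm c G g a l b V * nrm c G g a l b V' ≤
                (2 ^ (C' * (C * (k + 1) + 1)) * en c g a χ l V) *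
                (2 ^ (C' * (C * (k + 1) + 1)) * en c g a χ l V') :=
                mul_le_mul hV hV' (Pool.D2R.nrm_nonneg _ _ _ _ _ _ _)
                  (mul_nonneg (by positivity) (en_nonneg _ _ _ _ _ _))
            _ = _ := by
                rw [show 2 * C' * (C * (k + 1) + 1) =
                  C' * (C * (k + 1) + 1) + C' * (C * (k + 1) + 1) by ring, pow_add]
                ring
        refine (mul_le_mul_of_nonneg_left h8 (by positivity)).trans ?_
        rw [← mul_assoc, div_mul_eq_mul_div, ← pow_add]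
        refine mul_le_mul_of_nonneg_right (div_le_div_of_nonneg_right
          (pow_le_pow_right₀ (by norm_num) ?_) (by positivity)) hEE
        have h9 : 2 * C' * (C * (k + 1) + 1) ≤ 2 * C' * ((C + 1) * (k + 1)) :=
          Nat.mul_le_mul_left _ (by nlinarith)
        calc k + 2 * C' * (C * (k + 1) + 1) ≤ (k + 1) + 2 * C' * ((C + 1) * (k + 1)) := by omega
          _ ≤ _ := by nlinarith [Nat.zero_le (C * (k + 1))]

end Pool.HP46
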