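import Pool.Agent.H46.F5.Un
import Pool.Agent.H90.D2.Nrr

/-!
# (F5): the polynomials of a ball chart in natural coordinates

`hpol_of`: the data `HPol` from a ball chart with natural second derivatives of the coordinates
before the target.
-/

set_option autoImplicit false

namespace Pool.HP46

open Finset Real MvPolynomial
open Pool.Agent.H49.Ent Pool.Agent.H32.Dense Pool.STK Pool.KA Pool.KSAT Pool.K2S Pool.PB Pool.S6C
open Pool.GEN Pool.CHT Pool.CHX Pool.D2F Pool.D2Z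
open Pool.PB.Trl (rt rt_mem t_rt)
open Pool.F5 (gp hp lp eval_lp der_lp eval_gp dd_gp deg_gp eval_hp deg_hp ix HPol Bx lip_hs Xo)
open Pool.D2R (dd hs nrm nrz dd_add dd_smul dd_sub hs_sub hs_add_left hs_add_right hs_smul_left
  hs_smul_right hs_comm der_one der_curve)

variable {m J : ℕ}

/-- **The polynomial of the point**, centred at the rounded point. -/
noncomputable def PGn (F : Fam m J) (c : ℕ → Fin m) (g : ℕ → ℕ) (a n : ℕ)
    (ψ : PtT F → ℕ → Option (Fin m) → ℝ) (L : ℕ)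
    (G : PtT F → ℕ → MvPolynomial (Option (Fin m)) ℝ) (y : PtT F) :
    MvPolynomial (Option (Fin (n + 1))) ℝ :=
  NP c g a (ψ y) (n + 1) (bho J J y) (2 ^ g (n + 1) / 2 ^ L) (G y (n + 1))

/-- **The polynomial of the line**, centred at the point of relative time `0`. -/
noncomputable def PHn (F : Fam m J) (c : ℕ → Fin m) (g : ℕ → ℕ) (a n : ℕ)
    (ψH : LnT F → ℕ → Option (Fin m) → ℝ) (L : ℕ)
    (H : LnT F → ℕ → MvPolynomial (Option (Fin m)) ℝ) (s : LnT F) :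
    MvPolynomial (Option (Fin (n + 1))) ℝ :=
  NP c g a (ψH s) (n + 1) (fun o => (lc a s o).eval 0) (2 ^ g (n + 1) / 2 ^ L) (H s (n + 1))

/-- The points of the line. -/
theorem lc_lin (F : Fam m J) (a : ℕ) (ω : F.Ω) (τ : ℝ) (o : Option (Fin m)) :
    (lc a (slam F a ω) o).eval τ = (lc a (slam F a ω) o).eval 0 + τ * (1 / 2 ^ a * bd F ω o) := by
  cases o with
  | none =>
    simp only [lc, bd, Polynomial.eval_add, Polynomial.eval_mul, Polynomial.eval_C,
      Polynomial.eval_X]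
    ring
  | some j =>
    have e2 : (slam F a ω).1.2 j = F.d ω j := rfl
    simp only [lc, bd, e2, Polynomial.eval_add, Polynomial.eval_mul, Polynomial.eval_C,
      Polynomial.eval_X]
    ring

/-- The second derivative along the own line. -/
theorem own_hs (D : ℕ) : ∃ C : ℝ, 1 ≤ C ∧ ∀ {m J : ℕ} {F : Fam m J} {a : ℕ} {ω : F.Ω}
    {H : LnT F → MvPolynomial (Option (Fin m)) ℝ} {j : Fin m} {S : ℝ},
    (H (slam F a ω)).totalDegree ≤ D →
    (∀ τ ∈ Set.Icc (0 : ℝ) 1, |(dv a (fun s _ => H s) j (slam F a ω)).eval τ| ≤ S) →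
    ∀ τ ∈ Set.Icc (0 : ℝ) 1, |hs (H (slam F a ω)) (fun o => (lc a (slam F a ω) o).eval τ)
      ((1 / 2 ^ a : ℝ) • bd F ω) ((1 / 2 ^ a : ℝ) • bd F ω)| ≤ C * S := by
  obtain ⟨C, hC, hder⟩ := der_one (D + 1)
  refine ⟨C * C, one_le_mul_of_one_le_of_one_le hC hC, ?_⟩
  intro m J F a ω H j S hH hS τ hτ
  obtain ⟨q, hq⟩ : ∃ q, q = dv a (fun s _ => H s) j (slam F a ω) := ⟨_, rfl⟩
  rw [← hq] at hS
  have hqd : q.natDegree ≤ D + 1 := by
    rw [hq]
    unfold dv
    refine (Polynomial.natDegree_sub_le _ _).trans (max_le ((natDegree_lc a _ _).trans (by omega)) ?_)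
    exact (Pool.KBX.natDegree_aeval_le _ _ (natDegree_lc a _) hH).trans (by omega)
  have hqd' : (Polynomial.derivative q).natDegree ≤ D + 1 :=
    (Polynomial.natDegree_derivative_le q).trans (by omega)
  have h1 := hder q S hqd hS
  have h2 := hder (Polynomial.derivative q) (C * S) hqd' (fun t ht => h1 t (by
    rw [abs_of_nonneg ht.1]
    exact ht.2)) τ (by
    rw [abs_of_nonneg hτ.1]
    exact hτ.2)
  have h3 : (Polynomial.derivative (Polynomial.derivative q)).eval τ =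
      -hs (H (slam F a ω)) (fun o => (lc a (slam F a ω) o).eval τ)
        ((1 / 2 ^ a : ℝ) • bd F ω) ((1 / 2 ^ a : ℝ) • bd F ω) := by
    have h4 := (der_curve (lc a (slam F a ω)) (x := fun o => (lc a (slam F a ω) o).eval τ)
      (V := (1 / 2 ^ a : ℝ) • bd F ω) (Z := 0) (s := τ) (fun o => rfl)
      (fun o => by
        rw [der_lc, Polynomial.eval_C]
        rfl) (fun o => by
        rw [der_lc, Polynomial.derivative_C, Polynomial.eval_zero]
        rfl) (H (slam F a ω))).2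
    have e0 : dd (H (slam F a ω)) (fun o => (lc a (slam F a ω) o).eval τ)
        (0 : Option (Fin m) → ℝ) = 0 := by
      unfold dd
      simp
    rw [e0, add_zero] at h4
    rw [hq]
    unfold dv
    rw [Polynomial.derivative_sub, Polynomial.derivative_sub, Polynomial.eval_sub, h4, der_lc,
      Polynomial.derivative_C, Polynomial.eval_zero, zero_sub]
  rw [h3, abs_neg] at h2
  refine h2.trans (le_of_eq ?_)
  ring

/-- **The data** `HPol`. -/
theorem hpol_of (D n : ℕ) : ∃ C : ℕ, ∀ {m J : ℕ} {F : Fam m J} {c : ℕ → Fin m}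
    {a e k lam mu : ℕ} {g : ℕ → ℕ} {B : F.Ω → Prop}
    {G : PtT F → ℕ → MvPolynomial (Option (Fin m)) ℝ}
    {H : LnT F → ℕ → MvPolynomial (Option (Fin m)) ℝ} {ψ : PtT F → ℕ → Option (Fin m) → ℝ}
    {ψH : LnT F → ℕ → Option (Fin m) → ℝ} {M : PtT F → Fin n → Fin 2 → ℝ},
    Set.InjOn c (Set.Iio (n + 2)) → a ≤ J → mu ≤ lam → (∀ j ≤ n, e + g j + mu + n + 2 ≤ J) →
    ChOK F c (n + 2) (fun _ => D) a a e g B G H → FrOK F c (n + 1) a k e g B ψ ψH →
    (∀ ω, B ω → Nc c g a (n + 1) (2 ^ k) (ψ (ptr F J ω))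
      (fun l => grd (G (ptr F J ω) l) (bt F ω))) →
    (∀ ω, B ω → ∀ τ ∈ Set.Icc (0 : ℝ) 1,
      |(dv a (fun s _ => H s (n + 1)) (c (n + 1)) (slam F a ω)).eval τ| ≤
        2 ^ k / 2 ^ g (n + 1)) →
    (∀ ω, B ω → ∀ l < n + 1, ∀ b, NBx c (G (ptr F J ω)) g a (F.t ω) l b → ∀ V V',
      |hs (G (ptr F J ω) l) b V V'| ≤ 2 ^ k / 2 ^ g l *
        (nrm c (G (ptr F J ω)) g a l b V * nrm c (G (ptr F J ω)) g a l b V')) →
    (∀ ω, B ω → ∀ b, NBx c (G (ptr F J ω)) g a (F.t ω) (n + 1) b → ∀ V V',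
      |hs (G (ptr F J ω) (n + 1)) b V V'| ≤ 2 ^ (lam + k) / 2 ^ g (n + 1) *
        (nrm c (G (ptr F J ω)) g a (n + 1) b V * nrm c (G (ptr F J ω)) g a (n + 1) b V')) →
    (∀ ω, B ω → ∀ l : Fin n, |Xn F c g a ψ ω (l + 2) - (M (ptr F J ω) l 0 +
      M (ptr F J ω) l 1 * Xn F c g a ψ ω 1)| ≤ 2 ^ k / 2 ^ mu) →
    (∀ ω, B ω → ∀ l i, |M (ptr F J ω) l i| ≤ 2 ^ k) →
    HPol F c g a n D ψ B (PGn F c g a n ψ (lam + C * (k + 1)) G)
      (PHn F c g a n ψH (lam + C * (k + 1)) H) M (2 ^ k) (2 ^ k)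
      (2 ^ (C * (k + 1)) / 2 ^ mu) := by
  obtain ⟨Cp, hCp⟩ := ptn_of D (n + 1)
  obtain ⟨Cn, hCn⟩ := nrm_box D (n + 1)
  obtain ⟨Cd, -, hCd, -⟩ := all_s D (n + 1)
  obtain ⟨Ca, hCa⟩ := agr_hs D (n + 1)
  obtain ⟨Cl, hCl, hlip⟩ := lip_hs D
  obtain ⟨Co, hCo, hown⟩ := own_hs D
  obtain ⟨cl, hcl⟩ := pow_unbounded_of_one_lt Cl (one_lt_two (α := ℝ))
  obtain ⟨co, hco⟩ := pow_unbounded_of_one_lt Co (one_lt_two (α := ℝ))
  obtain ⟨C, hC⟩ : ∃ C, C = Cd * (Cp + 5) + 2 * (Cn * (Cp + 1)) + Ca * (Cp + 5) + 4 * n + cl +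
      co + 10 := ⟨_, rfl⟩
  refine ⟨C, ?_⟩
  intro m J F c a e k lam mu g B G H ψ ψH M hc haJ hml hJ hch hfr hnc hdv hnat htar hslp hbM
  have hc1 : Set.InjOn c (Set.Iio (n + 1)) := hc.mono (Set.Iio_subset_Iio (by omega))
  have hk1 : (1 : ℝ) ≤ 2 ^ k := one_le_pow₀ (by norm_num)
  have hg0 : (0 : ℝ) < 2 ^ g (n + 1) := by positivity
  -- exponents
  have hE0 : C * (k + 1) = Cd * (Cp + 5) * (k + 1) + 2 * (Cn * (Cp + 1) * (k + 1)) +
      Ca * (Cp + 5) * (k + 1) + 4 * n * (k + 1) + cl * (k + 1) + co * (k + 1) +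
      10 * (k + 1) := by rw [hC]; ring
  have hcl1 : cl ≤ cl * (k + 1) := Nat.le_mul_of_pos_right _ (by omega)
  have hco1 : co ≤ co * (k + 1) := Nat.le_mul_of_pos_right _ (by omega)
  have hn1 : 4 * n ≤ 4 * n * (k + 1) := Nat.le_mul_of_pos_right _ (by omega)
  have hd1 : Cd * (Cp * (k + 1) + 2 * k + 4 + 1) ≤ Cd * (Cp + 5) * (k + 1) := by
    rw [Nat.mul_assoc]
    refine Nat.mul_le_mul_left _ ?_
    nlinarith
  have ha1 : Ca * (Cp * (k + 1) + 2 * k + 4 + 1) ≤ Ca * (Cp + 5) * (k + 1) := by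
    rw [Nat.mul_assoc]
    refine Nat.mul_le_mul_left _ ?_
    nlinarith
  have hnn1 : Cn * (Cp * (k + 1) + 1) ≤ Cn * (Cp + 1) * (k + 1) := by
    rw [Nat.mul_assoc]
    refine Nat.mul_le_mul_left _ ?_
    nlinarith
  -- the point
  have hP : ∀ ω, B ω → Ptn c g a (n + 1) D (Cp * (k + 1)) (G (ptr F J ω)) (ψ (ptr F J ω))
      (bt F ω) := fun ω hω => hCp hc1 (hch.degG _) (hch.depG _) (hfr.dep _)
    (fun l hl => hch.pos ω hω l (by omega)) (fun l hl V => by
      have h1 := hnc ω hω l hl V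
      rw [cv_subl] at h1
      exact h1) (hnat ω hω)
  have hP2 : ∀ ω, B ω → Ptn c g a (n + 1) D (Cp * (k + 1) + 2 * k + 4) (G (ptr F J ω))
      (ψ (ptr F J ω)) (bt F ω) := fun ω hω => (hP ω hω).mono (by omega)
  -- the target in the frame
  have hT : ∀ ω, B ω → ∀ b, NBx c (G (ptr F J ω)) g a ((bt F ω) none) (n + 1) b → ∀ V V',
      |hs (G (ptr F J ω) (n + 1)) b V V'| ≤
        2 ^ (lam + k + 2 * (Cn * (Cp * (k + 1) + 1))) / 2 ^ g (n + 1) *
        (en c g a (ψ (ptr F J ω)) (n + 1) V * en c g a (ψ (ptr F J ω)) (n + 1) V') := by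
    intro ω hω b hb V V'
    have h1 := (hCn (hP ω hω) hb V).1
    have h2 := (hCn (hP ω hω) hb V').1
    refine (htar ω hω b hb V V').trans ?_
    have h3 : nrm c (G (ptr F J ω)) g a (n + 1) b V * nrm c (G (ptr F J ω)) g a (n + 1) b V' ≤
        2 ^ (2 * (Cn * (Cp * (k + 1) + 1))) *
        (en c g a (ψ (ptr F J ω)) (n + 1) V * en c g a (ψ (ptr F J ω)) (n + 1) V') := by
      refine (mul_le_mul h1 h2 (Pool.D2R.nrm_nonneg _ _ _ _ _ _ _)
        (mul_nonneg (by positivity) (en_nonneg _ _ _ _ _ _))).trans (le_of_eq ?_)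
      rw [two_mul, pow_add]
      ring
    refine (mul_le_mul_of_nonneg_left h3 (by positivity)).trans (le_of_eq ?_)
    rw [← mul_assoc, div_mul_eq_mul_div, ← pow_add]
  -- the rounded point
  have hδ : ∀ ω, B ω → ∀ j ≤ n + 1,
      |eta c g a (ψ (ptr F J ω)) (hx F ω - bt F ω) j| ≤ 1 / 2 ^ (mu + 1) := by
    intro ω hω j hj
    have h1 := eta_small (V := mu + n + 2) a hc1 (hfr.dep (ptr F J ω)) (hfr.lip ω hω)
      (W := hx F ω - bt F ω) (by rw [Pi.sub_apply, hx_none, sub_self])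
      (fun k => hx_some F ω k) (fun j hj => by
        have := hJ j (by omega)
        omega) hj
    refine h1.trans ?_
    have h2 : (((n + 1 : ℕ)) : ℝ) ≤ 2 ^ n := by
      push_cast
      exact two_i n
    rw [div_le_div_iff₀ (by positivity) (by positivity), one_mul]
    calc (((n + 1 : ℕ)) : ℝ) * 2 ^ (mu + 1) ≤ 2 ^ n * 2 ^ (mu + 1) :=
          mul_le_mul_of_nonneg_right h2 (by positivity)
      _ = 2 ^ (n + (mu + 1)) := by rw [← pow_add]
      _ ≤ _ := pow_le_pow_right₀ (by norm_num) (by omega)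
  have hen : ∀ ω, B ω → ∀ V : Option (Fin (n + 1)) → ℝ, (∀ o, |V o| ≤ 1) →
      en c g a (ψ (ptr F J ω)) (n + 1) (lin c g a (ψ (ptr F J ω)) (n + 1) V) ≤ 2 ^ (n + 1) := by
    intro ω hω V hV
    have h1 := en_lin_le g a hc1 (hfr.dep (ptr F J ω)) hV
    rw [mul_one] at h1
    exact h1.trans (two_i (n + 1))
  have hee : ∀ ω, B ω → ∀ V V' : Option (Fin (n + 1)) → ℝ, (∀ o, |V o| ≤ 1) →
      (∀ o, |V' o| ≤ 1) → en c g a (ψ (ptr F J ω)) (n + 1) (lin c g a (ψ (ptr F J ω)) (n + 1) V) *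
      en c g a (ψ (ptr F J ω)) (n + 1) (lin c g a (ψ (ptr F J ω)) (n + 1) V') ≤
        2 ^ (2 * (n + 1)) := by
    intro ω hω V V' hV hV'
    refine (mul_le_mul (hen ω hω V hV) (hen ω hω V' hV') (en_nonneg _ _ _ _ _ _)
      (by positivity)).trans (le_of_eq ?_)
    rw [two_mul, pow_add _ (n + 1) (n + 1)]
  -- the bounds on the box
  have hbx : ∀ ω, B ω → Bx (PGn F c g a n ψ (lam + C * (k + 1)) G (ptr F J ω))
      (8 * (2 ^ k) ^ 2) (2 ^ k) := by
    intro ω hω η V V' hη hV hV'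
    unfold PGn
    rw [hs_NP]
    obtain ⟨W, hW⟩ : ∃ W, W = (hx F ω - bt F ω) + lin c g a (ψ (ptr F J ω)) (n + 1) η := ⟨_, rfl⟩
    have e1 : bho J J (ptr F J ω) + lin c g a (ψ (ptr F J ω)) (n + 1) η = bt F ω + W := by
      rw [hW]
      show hx F ω + _ = _
      abel
    have hWe : ∀ j ≤ n + 1, |eta c g a (ψ (ptr F J ω)) W j| ≤
        2 ^ (Cp * (k + 1) + 2 * k + 4) := by
      intro j hj
      rw [hW, eta_add]
      refine (abs_add_le _ _).trans ((add_le_add (hδ ω hω j hj)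
        (eta_lin_le g a hc1 (hfr.dep (ptr F J ω)) hη j hj)).trans ?_)
      have h1 : (1 : ℝ) / 2 ^ (mu + 1) ≤ 1 := by
        rw [div_le_one (by positivity)]
        exact one_le_pow₀ (by norm_num)
      have h2 : (1 : ℝ) ≤ (2 ^ k) ^ 2 := one_le_pow₀ hk1
      have h3 : (2 : ℝ) ^ (2 * k + 4) = 16 * (2 ^ k) ^ 2 := by
        rw [pow_add, ← pow_mul, mul_comm k 2]
        norm_num
        ring
      calc (1 : ℝ) / 2 ^ (mu + 1) + 8 * (2 ^ k) ^ 2 ≤ 16 * (2 ^ k) ^ 2 := by linarith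
        _ = 2 ^ (2 * k + 4) := h3.symm
        _ ≤ _ := pow_le_pow_right₀ (by norm_num) (by omega)
    rw [e1, abs_mul, abs_of_pos (by positivity)]
    have h1 := hCd (hP2 ω hω) (hch.depG _ (n + 1)) (hch.degG _ (n + 1)) (by positivity)
      (hT ω hω) hWe (lin c g a (ψ (ptr F J ω)) (n + 1) V) (lin c g a (ψ (ptr F J ω)) (n + 1) V')
    have h2 := h1.trans (mul_le_mul_of_nonneg_left (hee ω hω V V' hV hV') (by positivity))
    refine (mul_le_mul_of_nonneg_left h2 (by positivity)).trans (le_trans ?_ hk1)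
    have e2 : (2 : ℝ) ^ g (n + 1) / 2 ^ (lam + C * (k + 1)) *
        (2 ^ (Cd * (Cp * (k + 1) + 2 * k + 4 + 1)) *
        (2 ^ (lam + k + 2 * (Cn * (Cp * (k + 1) + 1))) / 2 ^ g (n + 1)) * 2 ^ (2 * (n + 1))) =
        2 ^ (Cd * (Cp * (k + 1) + 2 * k + 4 + 1) + (lam + k + 2 * (Cn * (Cp * (k + 1) + 1))) +
          2 * (n + 1)) / 2 ^ (lam + C * (k + 1)) := by
      rw [pow_add _ (_ + _) (2 * (n + 1)), pow_add _ _ (lam + k + _)]
      field_simp
    rw [e2, div_le_one (by positivity)]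
    exact pow_le_pow_right₀ (by norm_num) (by omega)
  -- the line
  have hX : ∀ ω, B ω → (lin c g a (ψ (ptr F J ω)) (n + 1) (Xo n F c g a ψ ω)) none =
      ((1 / 2 ^ a : ℝ) • bd F ω) none ∧ ∀ l < n + 1,
      (lin c g a (ψ (ptr F J ω)) (n + 1) (Xo n F c g a ψ ω)) (some (c l)) =
        ((1 / 2 ^ a : ℝ) • bd F ω) (some (c l)) := fun ω hω =>
    lin_eta g a hc1 (hfr.dep (ptr F J ω)) ((1 / 2 ^ a : ℝ) • bd F ω)
  have hmu0 : (0 : ℝ) < 2 ^ mu := by positivity
  have hL0 : (1 : ℝ) / 2 ^ (lam + C * (k + 1)) ≤ 1 / 2 ^ mu :=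
    one_div_le_one_div_of_le hmu0 (pow_le_pow_right₀ (by norm_num) (by omega))
  refine ⟨fun y => deg_NP _ _ _ _ _ _ _ _ (hch.degG y (n + 1)),
    fun s => deg_NP _ _ _ _ _ _ _ _ (hch.degH s (n + 1)), hbx, ?_, ?_, ?_, hbM, ?_⟩
  · -- agreement
    intro ω hω η V V' hη hV hV'
    obtain ⟨χ, hχ⟩ : ∃ χ, χ = ψ (ptr F J ω) := ⟨_, rfl⟩
    have hχH : ψH (slam F a ω) = χ := by rw [hχ, hfr.cls ω hω]
    obtain ⟨κ, hκ⟩ : ∃ κ : ℝ, κ = 2 ^ g (n + 1) / 2 ^ (lam + C * (k + 1)) := ⟨_, rfl⟩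
    have hκ0 : 0 < κ := by rw [hκ]; positivity
    obtain ⟨δ, hδe⟩ : ∃ δ : Option (Fin (n + 1)) → ℝ,
        δ = fun o => eta c g a χ (bt F ω - hx F ω) (ix o) := ⟨_, rfl⟩
    have hδ1 : ∀ o, |δ o| ≤ 1 / 2 ^ mu := by
      intro o
      rw [hδe]
      show |eta c g a χ (bt F ω - hx F ω) (ix o)| ≤ _
      have e1 : bt F ω - hx F ω = (-1 : ℝ) • (hx F ω - bt F ω) := by
        rw [neg_smul, one_smul, neg_sub]
      rw [e1, eta_smul, abs_mul, abs_neg, abs_one, one_mul, hχ]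
      refine (hδ ω hω (ix o) (ix_le o)).trans ?_
      exact one_div_le_one_div_of_le hmu0 (pow_le_pow_right₀ (by norm_num) (by omega))
    have hmu1 : (1 : ℝ) / 2 ^ mu ≤ 1 := by
      rw [div_le_one hmu0]
      exact one_le_pow₀ (by norm_num)
    have g1 := hlip (P := PGn F c g a n ψ (lam + C * (k + 1)) G (ptr F J ω))
      (deg_NP _ _ _ _ _ _ _ _ (hch.degG _ (n + 1))) (hbx ω hω) (by positivity)
      (by positivity : (0 : ℝ) ≤ 1 / 2 ^ mu) hmu1 η δ (fun o => by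
        refine (hη o).trans ?_
        nlinarith) hδ1 1 1 zero_le_one zero_le_one V V' hV hV'
    -- the two sides at the exact point
    have g2 : hs (PGn F c g a n ψ (lam + C * (k + 1)) G (ptr F J ω)) (fun o => η o + δ o) V V' =
        κ * hs (G (ptr F J ω) (n + 1)) (bt F ω + lin c g a χ (n + 1) η)
          (lin c g a χ (n + 1) V) (lin c g a χ (n + 1) V') := by
      unfold PGn
      rw [hs_NP, ← hχ, ← hκ]
      congr 1
      have h1 := lin_eta g a hc1 (by rw [hχ]; exact hfr.dep (ptr F J ω) : ∀ l, CvC c l (χ l))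
        (bt F ω - hx F ω)
      rw [← hδe] at h1
      have e1 : (fun o => η o + δ o) = η + δ := rfl
      rw [e1, lin_add]
      refine hs_congr (hch.depG _ (n + 1)) ?_ (fun l hl => ?_) rfl (fun _ _ => rfl) rfl
        (fun _ _ => rfl)
      · simp only [Pi.add_apply]
        rw [h1.1, Pi.sub_apply]
        show hx F ω none + _ = _
        ring
      · simp only [Pi.add_apply]
        rw [h1.2 l hl, Pi.sub_apply]
        show hx F ω (some (c l)) + _ = _
        ring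
    have g3 : hs (PHn F c g a n ψH (lam + C * (k + 1)) H (slam F a ω))
        (fun o => rt F a ω * Xo n F c g a ψ ω o + η o) V V' =
        κ * hs (H (slam F a ω) (n + 1)) (bt F ω + lin c g a χ (n + 1) η)
          (lin c g a χ (n + 1) V) (lin c g a χ (n + 1) V') := by
      unfold PHn
      rw [hs_NP, hχH, ← hκ]
      congr 1
      have h1 := hX ω hω
      rw [← hχ] at h1
      have e1 : (fun o => rt F a ω * Xo n F c g a ψ ω o + η o) =
          rt F a ω • Xo n F c g a ψ ω + η := rfl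
      rw [e1, lin_add, lin_smul]
      refine hs_congr (hch.depH _ (n + 1)) ?_ (fun l hl => ?_) rfl (fun _ _ => rfl) rfl
        (fun _ _ => rfl)
      · simp only [Pi.add_apply, Pi.smul_apply, smul_eq_mul] at h1 ⊢
        rw [h1.1, ← eval_lc F haJ ω none, lc_lin F a ω (rt F a ω)]
        ring
      · simp only [Pi.add_apply, Pi.smul_apply, smul_eq_mul] at h1 ⊢
        rw [h1.2 l hl, ← eval_lc F haJ ω (some (c l)), lc_lin F a ω (rt F a ω)]
        ring
    have g4 := hCa (hP2 ω hω) (Q := G (ptr F J ω) (n + 1) - H (slam F a ω) (n + 1))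
      (M := 1 / 2 ^ g (n + 1)) (W := lin c g a (ψ (ptr F J ω)) (n + 1) η)
      (fun b b' h1 h2 => by
        rw [map_sub, map_sub, hch.depG _ (n + 1) b b' h1 h2, hch.depH _ (n + 1) b b' h1 h2])
      ((totalDegree_sub _ _).trans (max_le (hch.degG _ (n + 1)) (hch.degH _ (n + 1))))
      (by positivity) (fun b hb => by
        rw [map_sub]
        exact hch.agr ω hω (n + 1) (by omega) b hb)
      (fun j hj => (eta_lin_le g a hc1 (hfr.dep (ptr F J ω)) hη j hj).trans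
        (pow_le_pow_right₀ (by norm_num) (by omega)))
      (lin c g a (ψ (ptr F J ω)) (n + 1) V) (lin c g a (ψ (ptr F J ω)) (n + 1) V')
    have g5 := g4.trans (mul_le_mul_of_nonneg_left (hee ω hω V V' hV hV') (by positivity))
    rw [← hχ, hs_sub] at g5
    have e2 : hs (PGn F c g a n ψ (lam + C * (k + 1)) G (ptr F J ω)) η V V' -
        hs (PHn F c g a n ψH (lam + C * (k + 1)) H (slam F a ω))
          (fun o => rt F a ω * Xo n F c g a ψ ω o + η o) V V' =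
        κ * (hs (G (ptr F J ω) (n + 1)) (bt F ω + lin c g a χ (n + 1) η)
          (lin c g a χ (n + 1) V) (lin c g a χ (n + 1) V') -
          hs (H (slam F a ω) (n + 1)) (bt F ω + lin c g a χ (n + 1) η)
          (lin c g a χ (n + 1) V) (lin c g a χ (n + 1) V')) -
        (hs (PGn F c g a n ψ (lam + C * (k + 1)) G (ptr F J ω)) (fun o => η o + δ o) V V' -
          hs (PGn F c g a n ψ (lam + C * (k + 1)) G (ptr F J ω)) η V V') := by
      rw [g3, g2]
      ring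
    rw [e2]
    refine (abs_sub _ _).trans ?_
    rw [abs_mul, abs_of_pos hκ0]
    refine (add_le_add (mul_le_mul_of_nonneg_left g5 hκ0.le) g1).trans ?_
    have h1 : κ * (2 ^ (Ca * (Cp * (k + 1) + 2 * k + 4 + 1)) * (1 / 2 ^ g (n + 1)) *
        2 ^ (2 * (n + 1))) = 2 ^ (Ca * (Cp * (k + 1) + 2 * k + 4 + 1) + 2 * (n + 1)) *
        (1 / 2 ^ (lam + C * (k + 1))) := by
      rw [hκ, pow_add _ _ (2 * (n + 1))]
      field_simp
    rw [h1]
    have h2 : (2 : ℝ) ^ (Ca * (Cp * (k + 1) + 2 * k + 4 + 1) + 2 * (n + 1)) *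
        (1 / 2 ^ (lam + C * (k + 1))) ≤ 2 ^ (C * (k + 1) - 1) * (1 / 2 ^ mu) :=
      mul_le_mul (pow_le_pow_right₀ (by norm_num) (by omega)) hL0 (by positivity) (by positivity)
    have h3 : Cl * (2 ^ k * (1 / 2 ^ mu)) * (1 * 1) ≤ 2 ^ (C * (k + 1) - 1) * (1 / 2 ^ mu) := by
      have h4 : Cl * 2 ^ k ≤ 2 ^ (C * (k + 1) - 1) := by
        calc Cl * 2 ^ k ≤ 2 ^ cl * 2 ^ k := mul_le_mul_of_nonneg_right hcl.le (by positivity)
          _ = 2 ^ (cl + k) := by rw [← pow_add]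
          _ ≤ _ := pow_le_pow_right₀ (by norm_num) (by omega)
      have h5 := mul_le_mul_of_nonneg_right h4 (show (0 : ℝ) ≤ 1 / 2 ^ mu by positivity)
      refine le_trans (le_of_eq ?_) h5
      ring
    refine (add_le_add h2 h3).trans (le_of_eq ?_)
    have h6 : (2 : ℝ) ^ (C * (k + 1)) = 2 * 2 ^ (C * (k + 1) - 1) := by
      rw [← pow_succ']
      congr 1
      omega
    rw [h6]
    ring
  · -- the own line
    intro ω hω τ hτ
    obtain ⟨κ, hκ⟩ : ∃ κ : ℝ, κ = 2 ^ g (n + 1) / 2 ^ (lam + C * (k + 1)) := ⟨_, rfl⟩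
    have hκ0 : 0 < κ := by rw [hκ]; positivity
    have hχH : ψH (slam F a ω) = ψ (ptr F J ω) := (hfr.cls ω hω).symm
    have h1 := hown (H := fun s => H s (n + 1)) (hch.degH _ (n + 1)) (hdv ω hω) τ hτ
    have h2 := hX ω hω
    have g1 : hs (PHn F c g a n ψH (lam + C * (k + 1)) H (slam F a ω))
        (fun o => τ * Xo n F c g a ψ ω o) (Xo n F c g a ψ ω) (Xo n F c g a ψ ω) =
        κ * hs (H (slam F a ω) (n + 1)) (fun o => (lc a (slam F a ω) o).eval τ)
          ((1 / 2 ^ a : ℝ) • bd F ω) ((1 / 2 ^ a : ℝ) • bd F ω) := by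
      unfold PHn
      rw [hs_NP, hχH, ← hκ]
      congr 1
      have e1 : (fun o => τ * Xo n F c g a ψ ω o) = τ • Xo n F c g a ψ ω := rfl
      rw [e1, lin_smul]
      refine hs_congr (hch.depH _ (n + 1)) ?_ (fun l hl => ?_) h2.1 h2.2 h2.1 h2.2
      · simp only [Pi.add_apply, Pi.smul_apply, smul_eq_mul] at h2 ⊢
        rw [h2.1, lc_lin F a ω τ]
      · simp only [Pi.add_apply, Pi.smul_apply, smul_eq_mul] at h2 ⊢
        rw [h2.2 l hl, lc_lin F a ω τ]
    rw [g1, abs_mul, abs_of_pos hκ0]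
    refine (mul_le_mul_of_nonneg_left h1 hκ0.le).trans ?_
    have h3 : κ * (Co * (2 ^ k / 2 ^ g (n + 1))) = Co * 2 ^ k * (1 / 2 ^ (lam + C * (k + 1))) := by
      rw [hκ]
      field_simp
    rw [h3, div_eq_mul_one_div (2 ^ (C * (k + 1)))]
    refine mul_le_mul ?_ hL0 (by positivity) (by positivity)
    calc Co * 2 ^ k ≤ 2 ^ co * 2 ^ k := mul_le_mul_of_nonneg_right hco.le (by positivity)
      _ = 2 ^ (co + k) := by rw [← pow_add]
      _ ≤ _ := pow_le_pow_right₀ (by norm_num) (by omega)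
  · -- the slopes
    intro ω hω l
    refine (hslp ω hω l).trans (div_le_div_of_nonneg_right (pow_le_pow_right₀ (by norm_num) ?_)
      hmu0.le)
    omega
  · intro ω hω j hj
    exact Xn_le hfr hω hj

end Pool.HP46
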