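import Pool.Agent.H46.F5.Hpo
import Pool.Agent.H64.F5.One

/-!
# (F5): a second derivative which is not small at the point

`rel_of`: if the second derivative of the target is not small at the exact point, then an entry of
the normalised polynomial is not small.
-/

set_option autoImplicit false

namespace Pool.HP46

open Finset Real MvPolynomial
open Pool.Agent.H49.Ent Pool.Agent.H32.Dense Pool.STK Pool.KA Pool.KSAT Pool.K2S Pool.PB Pool.S6C
open Pool.GEN Pool.CHT Pool.CHX Pool.D2F Pool.D2Z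
open Pool.F5 (ix HPol Bx lip_hs Xo eo eo_le)
open Pool.D2R (dd hs)

variable {m J : ℕ}

theorem hs_eo {n : ℕ} (P : MvPolynomial (Option (Fin n)) ℝ) (x V V' : Option (Fin n) → ℝ) :
    hs P x V V' = ∑ o', ∑ o, hs P x (eo o) (eo o') * (V o * V' o') := by
  have h1 : ∀ o o' : Option (Fin n), hs P x (eo o) (eo o') = eval x (pderiv o (pderiv o' P)) := by
    intro o o'
    unfold hs dd eo
    simp
  simp only [h1]
  unfold hs dd
  refine Finset.sum_congr rfl fun o' _ => ?_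
  rw [Finset.sum_mul]
  exact Finset.sum_congr rfl fun o _ => by ring

/-- **A second derivative which is not small.** -/
theorem rel_of (D n : ℕ) : ∃ C : ℕ, ∀ {m J : ℕ} {F : Fam m J} {c : ℕ → Fin m}
    {a e k k' L mu s : ℕ} {g : ℕ → ℕ} {B : F.Ω → Prop}
    {G : PtT F → ℕ → MvPolynomial (Option (Fin m)) ℝ} {ψ : PtT F → ℕ → Option (Fin m) → ℝ}
    {ψH : LnT F → ℕ → Option (Fin m) → ℝ}, Set.InjOn c (Set.Iio (n + 1)) →
    (∀ j ≤ n, e + g j + mu + n + 2 ≤ J) → (∀ y, (G y (n + 1)).totalDegree ≤ D) →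
    (∀ y, DepC c (n + 1) (G y (n + 1))) → FrOK F c (n + 1) a k' e g B ψ ψH → s + k + C ≤ mu →
    ∀ ω, B ω → Bx (PGn F c g a n ψ L G (ptr F J ω)) (8 * (2 ^ k) ^ 2) (2 ^ k) →
    ∀ V V' : Option (Fin m) → ℝ, en c g a (ψ (ptr F J ω)) (n + 1) V ≤ 1 →
    en c g a (ψ (ptr F J ω)) (n + 1) V' ≤ 1 →
    2 ^ L / 2 ^ (s + g (n + 1)) ≤ |hs (G (ptr F J ω) (n + 1)) (bt F ω) V V'| →
    ∃ o o', 1 / 2 ^ (s + 2 * (n + 1) + 1) ≤
      |hs (PGn F c g a n ψ L G (ptr F J ω)) 0 (eo o) (eo o')| := by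
  obtain ⟨Cl, hCl, hlip⟩ := lip_hs D
  obtain ⟨cl, hcl⟩ := pow_unbounded_of_one_lt Cl (one_lt_two (α := ℝ))
  refine ⟨cl + 1, ?_⟩
  intro m J F c a e k k' L mu s g B G ψ ψH hc hJ hdeg hdep hfr hmu ω hω hbx V V' hV hV' hbig
  obtain ⟨χ, hχ⟩ : ∃ χ, χ = ψ (ptr F J ω) := ⟨_, rfl⟩
  obtain ⟨P, hP⟩ : ∃ P, P = PGn F c g a n ψ L G (ptr F J ω) := ⟨_, rfl⟩
  have hχd : ∀ l, CvC c l (χ l) := by rw [hχ]; exact hfr.dep _
  rw [← hχ] at hV hV'
  rw [← hP] at hbx ⊢
  have hk1 : (1 : ℝ) ≤ 2 ^ k := one_le_pow₀ (by norm_num)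
  -- the rounded point
  have hδ : ∀ j ≤ n + 1, |eta c g a χ (hx F ω - bt F ω) j| ≤ 1 / 2 ^ (mu + 1) := by
    intro j hj
    rw [hχ]
    have h1 := eta_small (V := mu + n + 2) a hc (hfr.dep (ptr F J ω)) (hfr.lip ω hω)
      (W := hx F ω - bt F ω) (by rw [Pi.sub_apply, hx_none, sub_self])
      (fun k => hx_some F ω k) (fun j hj => by
        have := hJ j (by omega)
        omega) hj
    refine h1.trans ?_
    have h2 : (((n + 1 : ℕ)) : ℝ) ≤ 2 ^ n := by
      push_cast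
      exact two_i n
    rw [div_le_div_iff₀ (by positivity) (by positivity), one_mul]
    calc (((n + 1 : ℕ)) : ℝ) * 2 ^ (mu + 1) ≤ 2 ^ n * 2 ^ (mu + 1) :=
          mul_le_mul_of_nonneg_right h2 (by positivity)
      _ = 2 ^ (n + (mu + 1)) := by rw [← pow_add]
      _ ≤ _ := pow_le_pow_right₀ (by norm_num) (by omega)
  obtain ⟨δ, hδe⟩ : ∃ δ : Option (Fin (n + 1)) → ℝ,
      δ = fun o => eta c g a χ (bt F ω - hx F ω) (ix o) := ⟨_, rfl⟩
  have hmu0 : (0 : ℝ) < 2 ^ mu := by positivity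
  have hδ1 : ∀ o, |δ o| ≤ 1 / 2 ^ mu := by
    intro o
    rw [hδe]
    show |eta c g a χ (bt F ω - hx F ω) (ix o)| ≤ _
    have e1 : bt F ω - hx F ω = (-1 : ℝ) • (hx F ω - bt F ω) := by
      rw [neg_smul, one_smul, neg_sub]
    rw [e1, eta_smul, abs_mul, abs_neg, abs_one, one_mul]
    refine (hδ (ix o) (ix_le o)).trans ?_
    exact one_div_le_one_div_of_le hmu0 (pow_le_pow_right₀ (by norm_num) (by omega))
  have hmu1 : (1 : ℝ) / 2 ^ mu ≤ 1 := by
    rw [div_le_one hmu0]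
    exact one_le_pow₀ (by norm_num)
  obtain ⟨V₁, hV₁⟩ : ∃ V₁ : Option (Fin (n + 1)) → ℝ, V₁ = fun o => eta c g a χ V (ix o) :=
    ⟨_, rfl⟩
  obtain ⟨V₂, hV₂⟩ : ∃ V₂ : Option (Fin (n + 1)) → ℝ, V₂ = fun o => eta c g a χ V' (ix o) :=
    ⟨_, rfl⟩
  have b1 : ∀ o, |V₁ o| ≤ 1 := fun o => by
    rw [hV₁]
    exact (eta_le_en V (ix_le o)).trans hV
  have b2 : ∀ o, |V₂ o| ≤ 1 := fun o => by
    rw [hV₂]
    exact (eta_le_en V' (ix_le o)).trans hV'
  have g1 : |hs P (fun o => (0 : Option (Fin (n + 1)) → ℝ) o + δ o) V₁ V₂ - hs P 0 V₁ V₂| ≤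
      Cl * (2 ^ k * (1 / 2 ^ mu)) * (1 * 1) := by
    refine hlip (P := P) ?_ hbx (by positivity) (by positivity) hmu1 0 δ (fun o => ?_) hδ1 1 1
      zero_le_one zero_le_one V₁ V₂ b1 b2
    · rw [hP]
      exact deg_NP _ _ _ _ _ _ _ _ (hdeg _)
    · rw [Pi.zero_apply, abs_zero]
      nlinarith
  have g2 : hs P (fun o => (0 : Option (Fin (n + 1)) → ℝ) o + δ o) V₁ V₂ =
      2 ^ g (n + 1) / 2 ^ L * hs (G (ptr F J ω) (n + 1)) (bt F ω) V V' := by
    rw [hP]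
    unfold PGn
    rw [hs_NP, ← hχ]
    congr 1
    have h1 := lin_eta g a hc hχd (bt F ω - hx F ω)
    have h2 := lin_eta g a hc hχd V
    have h3 := lin_eta g a hc hχd V'
    rw [← hδe] at h1
    rw [← hV₁] at h2
    rw [← hV₂] at h3
    have e1 : (fun o => (0 : Option (Fin (n + 1)) → ℝ) o + δ o) = δ := by
      funext o
      simp
    rw [e1]
    refine hs_congr (hdep _) ?_ (fun l hl => ?_) h2.1 h2.2 h3.1 h3.2
    · simp only [Pi.add_apply]
      rw [h1.1, Pi.sub_apply]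
      show hx F ω none + _ = _
      ring
    · simp only [Pi.add_apply]
      rw [h1.2 l hl, Pi.sub_apply]
      show hx F ω (some (c l)) + _ = _
      ring
  have g3 : 1 / 2 ^ s ≤ |hs P (fun o => (0 : Option (Fin (n + 1)) → ℝ) o + δ o) V₁ V₂| := by
    rw [g2, abs_mul, abs_of_pos (by positivity)]
    refine le_trans (le_of_eq ?_) (mul_le_mul_of_nonneg_left hbig (by positivity))
    rw [pow_add]
    field_simp
  have g4 : 1 / 2 ^ (s + 1) ≤ |hs P 0 V₁ V₂| := by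
    have h1 : Cl * (2 ^ k * (1 / 2 ^ mu)) * (1 * 1) ≤ 1 / 2 ^ (s + 1) := by
      have h2 : Cl * 2 ^ k * 2 ^ (s + 1) ≤ 2 ^ mu := by
        calc Cl * 2 ^ k * 2 ^ (s + 1) ≤ 2 ^ cl * 2 ^ k * 2 ^ (s + 1) :=
              mul_le_mul_of_nonneg_right (mul_le_mul_of_nonneg_right hcl.le (by positivity))
                (by positivity)
          _ = 2 ^ (cl + k + (s + 1)) := by rw [← pow_add, ← pow_add]
          _ ≤ _ := pow_le_pow_right₀ (by norm_num) (by omega)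
      rw [le_div_iff₀ (by positivity)]
      have e1 : Cl * (2 ^ k * (1 / 2 ^ mu)) * (1 * 1) * 2 ^ (s + 1) =
          Cl * 2 ^ k * 2 ^ (s + 1) / 2 ^ mu := by ring
      rw [e1, div_le_one hmu0]
      exact h2
    have h2 : |hs P (fun o => (0 : Option (Fin (n + 1)) → ℝ) o + δ o) V₁ V₂| ≤
        |hs P (fun o => (0 : Option (Fin (n + 1)) → ℝ) o + δ o) V₁ V₂ - hs P 0 V₁ V₂| +
          |hs P 0 V₁ V₂| := by
      have := abs_add_le (hs P (fun o => (0 : Option (Fin (n + 1)) → ℝ) o + δ o) V₁ V₂ -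
        hs P 0 V₁ V₂) (hs P 0 V₁ V₂)
      rwa [sub_add_cancel] at this
    have h3 : (1 : ℝ) / 2 ^ s = 1 / 2 ^ (s + 1) + 1 / 2 ^ (s + 1) := by
      rw [pow_succ]
      field_simp
      norm_num
    linarith
  by_contra hno
  push Not at hno
  obtain ⟨E, hE⟩ : ∃ E : ℝ, E = 1 / 2 ^ (s + 2 * (n + 1) + 1) := ⟨_, rfl⟩
  have hE0 : 0 < E := by rw [hE]; positivity
  have h1 : |hs P 0 V₁ V₂| < ((n : ℝ) + 2) * (((n : ℝ) + 2) * E) := by
    rw [hs_eo]
    have hcard : (Finset.univ : Finset (Option (Fin (n + 1)))).card = n + 2 := by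
      rw [Finset.card_univ, Fintype.card_option, Fintype.card_fin]
    refine (Finset.abs_sum_le_sum_abs _ _).trans_lt ?_
    have h2 : ∀ o' ∈ (Finset.univ : Finset (Option (Fin (n + 1)))),
        |∑ o, hs P 0 (eo o) (eo o') * (V₁ o * V₂ o')| < ((n : ℝ) + 2) * E := by
      intro o' _
      refine (Finset.abs_sum_le_sum_abs _ _).trans_lt ?_
      have h3 : ∀ o ∈ (Finset.univ : Finset (Option (Fin (n + 1)))),
          |hs P 0 (eo o) (eo o') * (V₁ o * V₂ o')| < E := by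
        intro o _
        rw [abs_mul, abs_mul]
        have h4 := hno o o'
        rw [← hE] at h4
        have h5 : |V₁ o| * |V₂ o'| ≤ 1 := by
          calc |V₁ o| * |V₂ o'| ≤ 1 * 1 := mul_le_mul (b1 o) (b2 o') (abs_nonneg _) zero_le_one
            _ = 1 := one_mul 1
        calc _ ≤ |hs P 0 (eo o) (eo o')| * 1 := mul_le_mul_of_nonneg_left h5 (abs_nonneg _)
          _ < E := by rw [mul_one]; exact h4
      refine (Finset.sum_lt_sum_of_nonempty Finset.univ_nonempty h3).trans_le (le_of_eq ?_)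
      rw [Finset.sum_const, hcard, nsmul_eq_mul]
      push_cast
      ring
    refine (Finset.sum_lt_sum_of_nonempty Finset.univ_nonempty h2).trans_le (le_of_eq ?_)
    rw [Finset.sum_const, hcard, nsmul_eq_mul]
    push_cast
    ring
  have h2 : ((n : ℝ) + 2) ≤ 2 ^ (n + 1) := by
    have := two_i (n + 1)
    push_cast at this
    linarith
  have hn0 : (0 : ℝ) ≤ n := Nat.cast_nonneg n
  have h3 : ((n : ℝ) + 2) * (((n : ℝ) + 2) * E) ≤ 1 / 2 ^ (s + 1) := by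
    calc ((n : ℝ) + 2) * (((n : ℝ) + 2) * E) ≤ 2 ^ (n + 1) * (2 ^ (n + 1) * E) :=
          mul_le_mul h2 (mul_le_mul_of_nonneg_right h2 hE0.le) (by positivity) (by positivity)
      _ = 1 / 2 ^ (s + 1) := by
          rw [hE, show s + 2 * (n + 1) + 1 = (n + 1) + ((n + 1) + (s + 1)) by ring,
            pow_add _ (n + 1) (n + 1 + (s + 1)), pow_add _ (n + 1) (s + 1)]
          field_simp
  linarith

end Pool.HP46
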