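import Pool.Agent.H46.F5.Dil
import Pool.Agent.H64.F5.Nat

/-!
# Polynomials in natural coordinates

`unr`: the vector with given natural coordinates. `lin`: the linear map from the natural coordinates.
`NP`: a polynomial in the natural coordinates around a point; its second derivatives (`hs_NP`).
-/

set_option autoImplicit false

namespace Pool.HP46

open Finset Real MvPolynomial
open Pool.GEN Pool.CHT Pool.D2F Pool.D2Z
open Pool.F5 (gp hp lp eval_lp der_lp eval_gp dd_gp deg_gp eval_hp deg_hp ix)
open Pool.D2R (dd hs dd_add dd_smul dd_sub hs_sub hs_add_left hs_add_right hs_smul_left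
  hs_smul_right hs_comm)

variable {m : ℕ}

/-- **The vector with the natural coordinates `η`.** -/
noncomputable def unr (c : ℕ → Fin m) (g : ℕ → ℕ) (a : ℕ) (χ : ℕ → Option (Fin m) → ℝ)
    (η : ℕ → ℝ) : ℕ → Option (Fin m) → ℝ
  | 0 => fun o => if o = none then η 0 / 2 ^ a else 0
  | l + 1 => fun o => if o = some (c l) then cv (χ l) (unr c g a χ η l) + η (l + 1) / 2 ^ g l
      else unr c g a χ η l o

section unr

variable (c : ℕ → Fin m) (g : ℕ → ℕ) (a : ℕ) (χ : ℕ → Option (Fin m) → ℝ) (η : ℕ → ℝ)

theorem unr_none (l : ℕ) : unr c g a χ η l none = η 0 / 2 ^ a := by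
  induction l with
  | zero => simp only [unr, if_true]
  | succ l ih =>
    simp only [unr]
    rw [if_neg (by simp), ih]

variable {c}

theorem unr_some {i : ℕ} (hc : Set.InjOn c (Set.Iio i)) {j l : ℕ} (hj : j < l) (hl : l ≤ i) :
    unr c g a χ η l (some (c j)) = cv (χ j) (unr c g a χ η j) + η (j + 1) / 2 ^ g j := by
  induction l with
  | zero => exact absurd hj (Nat.not_lt_zero j)
  | succ l ih =>
    simp only [unr]
    rcases Nat.lt_succ_iff_lt_or_eq.1 hj with hj' | rfl
    · rw [if_neg, ih hj' (by omega)]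
      intro h
      have h1 := hc (show j < i by omega) (show l < i by omega) (Option.some_injective _ h)
      omega
    · rw [if_pos rfl]

theorem eta_unr {i : ℕ} (hc : Set.InjOn c (Set.Iio i)) (hχ : ∀ l, CvC c l (χ l)) {j : ℕ}
    (hj : j ≤ i) : eta c g a χ (unr c g a χ η i) j = η j := by
  cases j with
  | zero =>
    simp only [eta]
    rw [unr_none]
    field_simp
  | succ l =>
    simp only [eta]
    have h1 : cv (χ l) (unr c g a χ η i) = cv (χ l) (unr c g a χ η l) := by
      refine cv_congr (hχ l) (by rw [unr_none, unr_none]) fun j hj' => ?_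
      rw [unr_some g a χ η hc (by omega) le_rfl, unr_some g a χ η hc hj' (by omega)]
    rw [unr_some g a χ η hc hj le_rfl, h1]
    field_simp
    ring

end unr

/-- A vector is determined by its natural coordinates. -/
theorem eta_inj {c : ℕ → Fin m} {g : ℕ → ℕ} {a : ℕ} {χ : ℕ → Option (Fin m) → ℝ} {i : ℕ}
    (hχ : ∀ l, CvC c l (χ l)) {V W : Option (Fin m) → ℝ}
    (h : ∀ j ≤ i, eta c g a χ V j = eta c g a χ W j) :
    V none = W none ∧ ∀ l < i, V (some (c l)) = W (some (c l)) := by
  have h0 : V none = W none := by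
    have h1 := h 0 (Nat.zero_le _)
    simp only [eta] at h1
    exact mul_left_cancel₀ (by positivity) h1
  refine ⟨h0, fun l => ?_⟩
  induction l using Nat.strong_induction_on with
  | _ l ih =>
    intro hl
    have h1 := h (l + 1) hl
    simp only [eta] at h1
    have h2 := mul_left_cancel₀ (show (2 : ℝ) ^ g l ≠ 0 by positivity) h1
    have h3 : cv (χ l) V = cv (χ l) W := cv_congr (hχ l) h0 fun j hj => ih j hj (by omega)
    linarith

/-- The `j`-th unit list. -/
def bs (j : ℕ) : ℕ → ℝ := fun i => if i = j then 1 else 0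

/-- **The linear map from the natural coordinates.** -/
noncomputable def lin (c : ℕ → Fin m) (g : ℕ → ℕ) (a : ℕ) (χ : ℕ → Option (Fin m) → ℝ) (n : ℕ)
    (V : Option (Fin n) → ℝ) : Option (Fin m) → ℝ :=
  fun k => ∑ o, V o * unr c g a χ (bs (ix o)) n k

section lin

variable (c : ℕ → Fin m) (g : ℕ → ℕ) (a : ℕ) (χ : ℕ → Option (Fin m) → ℝ) (n : ℕ)

theorem lin_add (V V' : Option (Fin n) → ℝ) :
    lin c g a χ n (V + V') = lin c g a χ n V + lin c g a χ n V' := by
  funext k
  simp only [lin, Pi.add_apply]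
  rw [← Finset.sum_add_distrib]
  exact Finset.sum_congr rfl fun o _ => by ring

theorem lin_smul (V : Option (Fin n) → ℝ) (s : ℝ) :
    lin c g a χ n (s • V) = s • lin c g a χ n V := by
  funext k
  simp only [lin, Pi.smul_apply, smul_eq_mul, Finset.mul_sum]
  exact Finset.sum_congr rfl fun o _ => by ring

theorem ix_inj {n : ℕ} {o o' : Option (Fin n)} (h : ix o = ix o') : o = o' := by
  cases o with
  | none =>
    cases o' with
    | none => rfl
    | some j => exact absurd h (by simp [ix])
  | some i =>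
    cases o' with
    | none => exact absurd h (by simp [ix])
    | some j =>
      have h1 : (i : ℕ) + 1 = j + 1 := h
      have h2 : i = j := Fin.ext (by omega)
      rw [h2]

theorem ix_le {n : ℕ} (o : Option (Fin n)) : ix o ≤ n := by
  cases o with
  | none => exact Nat.zero_le _
  | some j => exact j.2

theorem ix_sur {n j : ℕ} (hj : j ≤ n) : ∃ o : Option (Fin n), ix o = j := by
  cases j with
  | zero => exact ⟨none, rfl⟩
  | succ l => exact ⟨some ⟨l, hj⟩, rfl⟩

variable {c χ n}

theorem eta_lin (hc : Set.InjOn c (Set.Iio n)) (hχ : ∀ l, CvC c l (χ l))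
    (V : Option (Fin n) → ℝ) (o : Option (Fin n)) :
    eta c g a χ (lin c g a χ n V) (ix o) = V o := by
  have h1 : eta c g a χ (lin c g a χ n V) (ix o) =
      ∑ o', V o' * eta c g a χ (unr c g a χ (bs (ix o')) n) (ix o) := by
    rw [← cv_ec]
    unfold cv lin
    simp only [Finset.mul_sum]
    rw [Finset.sum_comm]
    refine Finset.sum_congr rfl fun o' _ => ?_
    rw [← cv_ec]
    unfold cv
    rw [Finset.mul_sum]
    exact Finset.sum_congr rfl fun k _ => by ring
  rw [h1, Finset.sum_eq_single o]
  · rw [eta_unr g a χ _ hc hχ (ix_le o)]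
    simp [bs]
  · intro o' _ ho'
    rw [eta_unr g a χ _ hc hχ (ix_le o)]
    unfold bs
    rw [if_neg fun h => ho' (ix_inj h).symm, mul_zero]
  · intro h
    exact absurd (Finset.mem_univ _) h

theorem eta_lin_le (hc : Set.InjOn c (Set.Iio n)) (hχ : ∀ l, CvC c l (χ l))
    {V : Option (Fin n) → ℝ} {R : ℝ} (hV : ∀ o, |V o| ≤ R) :
    ∀ j ≤ n, |eta c g a χ (lin c g a χ n V) j| ≤ R := by
  intro j hj
  obtain ⟨o, rfl⟩ := ix_sur hj
  rw [eta_lin g a hc hχ]
  exact hV o

theorem en_lin_le (hc : Set.InjOn c (Set.Iio n)) (hχ : ∀ l, CvC c l (χ l))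
    {V : Option (Fin n) → ℝ} {R : ℝ} (hV : ∀ o, |V o| ≤ R) :
    en c g a χ n (lin c g a χ n V) ≤ (n + 1) * R := en_le_of (eta_lin_le g a hc hχ hV)

/-- A vector and the vector of its natural coordinates. -/
theorem lin_eta (hc : Set.InjOn c (Set.Iio n)) (hχ : ∀ l, CvC c l (χ l))
    (W : Option (Fin m) → ℝ) :
    lin c g a χ n (fun o => eta c g a χ W (ix o)) none = W none ∧
      ∀ l < n, lin c g a χ n (fun o => eta c g a χ W (ix o)) (some (c l)) = W (some (c l)) := by
  refine eta_inj (g := g) (a := a) hχ fun j hj => ?_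
  obtain ⟨o, rfl⟩ := ix_sur hj
  rw [eta_lin g a hc hχ]

end lin

/-! ### The polynomials -/

/-- **A polynomial in the natural coordinates** around the point `x`, times `κ`. -/
noncomputable def NP (c : ℕ → Fin m) (g : ℕ → ℕ) (a : ℕ) (χ : ℕ → Option (Fin m) → ℝ) (n : ℕ)
    (x : Option (Fin m) → ℝ) (κ : ℝ) (G : MvPolynomial (Option (Fin m)) ℝ) :
    MvPolynomial (Option (Fin n)) ℝ :=
  C κ * bind₁ (fun k => C (x k) + ∑ o, C (unr c g a χ (bs (ix o)) n k) * X o) G

section NP

variable (c : ℕ → Fin m) (g : ℕ → ℕ) (a : ℕ) (χ : ℕ → Option (Fin m) → ℝ) (n : ℕ)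
  (x : Option (Fin m) → ℝ) (κ : ℝ) (G : MvPolynomial (Option (Fin m)) ℝ)

theorem eval_NP (η : Option (Fin n) → ℝ) :
    eval η (NP c g a χ n x κ G) = κ * eval (x + lin c g a χ n η) G := by
  unfold NP
  rw [map_mul, eval_C]
  congr 1
  rw [eval, eval₂Hom_bind₁]
  congr 1
  congr 1
  funext k
  show eval η (C (x k) + ∑ o, C (unr c g a χ (bs (ix o)) n k) * X o) = (x + lin c g a χ n η) k
  rw [map_add, eval_C, map_sum, Pi.add_apply]
  congr 1
  unfold lin
  exact Finset.sum_congr rfl fun o _ => by rw [map_mul, eval_C, eval_X]; ring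

theorem deg_NP {D : ℕ} (h : G.totalDegree ≤ D) : (NP c g a χ n x κ G).totalDegree ≤ D := by
  unfold NP
  refine (totalDegree_mul _ _).trans ?_
  rw [totalDegree_C, zero_add]
  refine (Pool.SLO.totalDegree_bind₁_le _ (fun k => ?_) _).trans h
  refine (totalDegree_add _ _).trans (max_le ?_ ?_)
  · rw [totalDegree_C]
    exact Nat.zero_le _
  · refine totalDegree_finsetSum_le fun o _ => ?_
    refine (totalDegree_mul _ _).trans ?_
    rw [totalDegree_C, zero_add, totalDegree_X]

/-- **The second derivatives.** -/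
theorem hs_NP (η V V' : Option (Fin n) → ℝ) : hs (NP c g a χ n x κ G) η V V' =
    κ * hs G (x + lin c g a χ n η) (lin c g a χ n V) (lin c g a χ n V') := by
  obtain ⟨P, hP⟩ : ∃ P, P = NP c g a χ n x κ G := ⟨_, rfl⟩
  have quad : ∀ W : Option (Fin n) → ℝ, hs P η W W =
      κ * hs G (x + lin c g a χ n η) (lin c g a χ n W) (lin c g a χ n W) := by
    intro W
    have e1 : lp P η W = Polynomial.C κ * lp G (x + lin c g a χ n η) (lin c g a χ n W) := by
      refine Polynomial.funext fun s => ?_
      rw [eval_lp, Polynomial.eval_mul, Polynomial.eval_C, eval_lp, hP, eval_NP]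
      have e2 : (fun o => η o + s * W o) = η + s • W := rfl
      rw [e2, lin_add, lin_smul]
      have e3 : x + (lin c g a χ n η + s • lin c g a χ n W) =
          fun o => (x + lin c g a χ n η) o + s * lin c g a χ n W o := by
        funext k
        simp only [Pi.add_apply, Pi.smul_apply, smul_eq_mul]
        ring
      rw [e3]
    have h1 := (der_lp P η W 0).2
    rw [e1, Polynomial.derivative_C_mul, Polynomial.derivative_C_mul, Polynomial.eval_mul,
      Polynomial.eval_C, (der_lp _ _ _ 0).2] at h1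
    have e3 : (fun o => η o + 0 * W o) = η := by
      funext o
      ring
    have e4 : (fun o => (x + lin c g a χ n η) o + 0 * (lin c g a χ n W) o) =
        x + lin c g a χ n η := by
      funext o
      ring
    rw [e3, e4] at h1
    exact h1.symm
  rw [← hP]
  have h1 := quad (V + V')
  have h2 := quad V
  have h3 := quad V'
  rw [lin_add] at h1
  simp only [hs_add_left, hs_add_right] at h1
  rw [hs_comm P η V' V, hs_comm G _ (lin c g a χ n V') (lin c g a χ n V)] at h1
  linarith

end NP

end Pool.HP46
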